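import Mathlib

namespace Pool.Agent.H78.Cat

open Set

/-- The well-ordered type of all countable ordinals (order type `ω₁`). -/
abbrev W1 : Type := (Cardinal.aleph 1).ord.ToType

theorem seg (a : W1) : (Iio a).Countable := by
  have h : Cardinal.mk (Iio a) < Cardinal.mk W1 := Cardinal.mk_Iio_lt a (by
    rw [Cardinal.mk_ord_toType]; exact (Ordinal.type_toType _).symm)
  have h2 : Cardinal.mk (Iio a) < Order.succ Cardinal.aleph0 := by
    rw [Cardinal.succ_aleph0]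
    exact lt_of_lt_of_eq h (Cardinal.mk_ord_toType _)
  rw [Order.lt_succ_iff] at h2
  exact Cardinal.le_aleph0_iff_set_countable.1 h2

theorem unc : ¬ (univ : Set W1).Countable := by
  intro h
  have h1 : Cardinal.mk W1 = Cardinal.aleph 1 := Cardinal.mk_ord_toType _
  have h2 : Cardinal.mk W1 ≤ Cardinal.aleph0 := by
    rw [← Cardinal.mk_univ]; exact Cardinal.le_aleph0_iff_set_countable.2 h
  rw [h1, ← not_lt] at h2
  exact h2 Cardinal.aleph0_lt_aleph_one

theorem bdd {A : Set W1} (hA : A.Countable) : ∃ b : W1, ∀ a ∈ A, a < b := by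
  by_contra h
  push Not at h
  apply unc
  have : (univ : Set W1) ⊆ ⋃ a ∈ A, insert a (Iio a) := by
    intro b _
    obtain ⟨a, ha, hb⟩ := h b
    simp only [mem_iUnion]
    refine ⟨a, ha, ?_⟩
    rcases hb.lt_or_eq with h1 | h1
    · exact Or.inr h1
    · exact Or.inl h1
  exact (hA.biUnion fun a _ => (seg a).insert a).mono this

instance : NoMaxOrder W1 := ⟨fun a => by
  obtain ⟨b, hb⟩ := bdd (countable_singleton a)
  exact ⟨b, hb a rfl⟩⟩

instance : Nonempty W1 := by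
  by_contra h
  apply unc
  rw [not_nonempty_iff] at h
  exact countable_univ

noncomputable instance : OrderBot W1 := WellFoundedLT.toOrderBot W1

/-- limit elements of `W1` -/
def Lim (δ : W1) : Prop := (∃ ξ, ξ < δ) ∧ ∀ ξ < δ, ∃ η, ξ < η ∧ η < δ

theorem not_lim {δ : W1} (h : ¬ Lim δ) : δ = ⊥ ∨ ∃ η, δ = Order.succ η := by
  by_cases h0 : ∃ ξ, ξ < δ
  · right
    unfold Lim at h
    push Not at h
    obtain ⟨ξ, h1, h2⟩ := h h0
    refine ⟨ξ, le_antisymm ?_ ?_⟩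
    · exact h2 _ (Order.lt_succ ξ)
    · exact Order.succ_le_of_lt h1
  · left
    by_contra h1
    exact h0 ⟨⊥, bot_lt_iff_ne_bot.2 h1⟩

theorem lim_succ {δ ξ : W1} (h : Lim δ) (hξ : ξ < δ) : Order.succ ξ < δ := by
  obtain ⟨η, h1, h2⟩ := h.2 ξ hξ
  exact lt_of_le_of_lt (Order.succ_le_of_lt h1) h2

theorem exists_seq {A : Set W1} (hA : A.Countable) (hnm : ∀ a ∈ A, ∃ b ∈ A, a < b) {a0 : W1}
    (h0 : a0 ∈ A) :
    ∃ g : ℕ → W1, StrictMono g ∧ (∀ i, g i ∈ A) ∧ g 0 = a0 ∧ ∀ a ∈ A, ∃ i, a < g i := by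
  obtain ⟨e, he⟩ := hA.exists_eq_range ⟨a0, h0⟩
  have key : ∀ (x : A) (n : ℕ), ∃ y : A, (x : W1) < y ∧ e n < y := by
    intro x n
    have hen : e n ∈ A := by rw [he]; exact mem_range_self n
    rcases le_total (x : W1) (e n) with h | h
    · obtain ⟨b, hb, hb'⟩ := hnm _ hen
      exact ⟨⟨b, hb⟩, lt_of_le_of_lt h hb', hb'⟩
    · obtain ⟨b, hb, hb'⟩ := hnm _ x.2
      exact ⟨⟨b, hb⟩, hb', lt_of_le_of_lt h hb'⟩
  choose nx hnx1 hnx2 using key
  let G : ℕ → {x : W1 // x ∈ A} := fun n => Nat.rec (motive := fun _ => {x : W1 // x ∈ A})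
    ⟨a0, h0⟩ (fun n x => nx x n) n
  have hG0 : (G 0).1 = a0 := rfl
  have hGs : StrictMono (fun n => (G n).1) := strictMono_nat_of_lt_succ fun n => hnx1 (G n) n
  have hGA : ∀ i, (G i).1 ∈ A := fun i => (G i).2
  refine ⟨fun n => (G n).1, hGs, hGA, hG0, ?_⟩
  intro a ha
  rw [he] at ha
  obtain ⟨n, rfl⟩ := ha
  exact ⟨n + 1, hnx2 (G n) n⟩

/-- restriction to `Iio γ`, padded with zero -/
noncomputable def res (γ : W1) (u : W1 → ℕ) : W1 → ℕ := fun ξ => if ξ < γ then u ξ else 0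

theorem res_apply {γ : W1} {u : W1 → ℕ} {ξ : W1} (h : ξ < γ) : res γ u ξ = u ξ := by
  simp [res, h]

theorem res_apply_ge {γ : W1} {u : W1 → ℕ} {ξ : W1} (h : γ ≤ ξ) : res γ u ξ = 0 := by
  simp [res, not_lt.2 h]

theorem res_res {γ δ : W1} (h : γ ≤ δ) (u : W1 → ℕ) : res γ (res δ u) = res γ u := by
  funext ξ
  unfold res
  split_ifs with h1 h2
  · rfl
  · exact absurd (lt_of_lt_of_le h1 h) h2
  · rfl

theorem res_idem (γ : W1) (u : W1 → ℕ) : res γ (res γ u) = res γ u := res_res le_rfl u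

theorem res_eq_iff {γ : W1} {u v : W1 → ℕ} : res γ u = res γ v ↔ ∀ ξ < γ, u ξ = v ξ := by
  constructor
  · intro h ξ hξ
    have := congrFun h ξ
    rwa [res_apply hξ, res_apply hξ] at this
  · intro h
    funext ξ
    unfold res
    split_ifs with h1
    · exact h ξ h1
    · rfl

theorem res_image {γ η : W1} (h : γ ≤ η) (u : W1 → ℕ) : (res η u) '' Iio γ = u '' Iio γ := by
  apply image_congr
  intro ξ hξ
  exact res_apply (lt_of_lt_of_le hξ h)

theorem res_mono {γ η : W1} (h : γ ≤ η) {u v : W1 → ℕ} (huv : res η u = res η v) :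
    res γ u = res γ v := by
  rw [← res_res h u, huv, res_res h v]

/-- branches through `T` of length `δ` -/
def Br (T : W1 → Set (W1 → ℕ)) (δ : W1) : Set (W1 → ℕ) :=
  {u | res δ u = u ∧ (∀ ξ < δ, res ξ u ∈ T ξ) ∧ InjOn u (Iio δ) ∧ (u '' Iio δ)ᶜ.Infinite}

theorem fusion {T : W1 → Set (W1 → ℕ)} (hT : ∀ δ, T δ ⊆ Br T δ) {δ : W1} {g : ℕ → W1}
    (hg : StrictMono g) (hgδ : ∀ i, g i < δ) (hcof : ∀ ξ < δ, ∃ i, ξ < g i)
    (G : ℕ → (W1 → ℕ) → Finset ℕ → Prop)
    (hG : ∀ i t F, G i t F → t ∈ T (g i) ∧ ∀ m ∈ F, m ∉ t '' Iio (g i))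
    (step : ∀ i t F, G i t F → ∃ t' F', G (i + 1) t' F' ∧ res (g i) t' = t ∧ F ⊂ F')
    {t0 : W1 → ℕ} {F0 : Finset ℕ} (h0 : G 0 t0 F0) :
    ∃ u ∈ Br T δ, res (g 0) u = t0 ∧ (∀ m ∈ F0, m ∉ u '' Iio δ) ∧
      ∀ i, ∃ F, G i (res (g i) u) F := by
  classical
  choose st sF hst1 hst2 hst3 using step
  let S : (i : ℕ) → {p : (W1 → ℕ) × Finset ℕ // G i p.1 p.2} := fun i =>
    Nat.rec ⟨(t0, F0), h0⟩ (fun i p => ⟨(st i p.1.1 p.1.2 p.2, sF i p.1.1 p.1.2 p.2), hst1 i _ _ p.2⟩) i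
  set t : ℕ → (W1 → ℕ) := fun i => (S i).1.1 with ht
  set F : ℕ → Finset ℕ := fun i => (S i).1.2 with hF
  have hSG : ∀ i, G i (t i) (F i) := fun i => (S i).2
  have hres : ∀ i, res (g i) (t (i + 1)) = t i := fun i => hst2 i _ _ (S i).2
  have hFF : ∀ i, F i ⊂ F (i + 1) := fun i => hst3 i _ _ (S i).2
  have hresij : ∀ i j, i ≤ j → ∀ ξ < g i, t j ξ = t i ξ := by
    intro i j hij
    induction j, hij using Nat.le_induction with
    | base => intro ξ _; rfl
    | succ j hij ih =>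
      intro ξ hξ
      have h1 : ξ < g j := lt_of_lt_of_le hξ (hg.monotone hij)
      rw [← ih ξ hξ, ← hres j, res_apply h1]
  have hFm : StrictMono F := strictMono_nat_of_lt_succ hFF
  let u : W1 → ℕ := fun ξ => if h : ∃ i, ξ < g i then t (Nat.find h) ξ else 0
  have hu : ∀ i, ∀ ξ < g i, u ξ = t i ξ := by
    intro i ξ hξ
    have h : ∃ i, ξ < g i := ⟨i, hξ⟩
    have h1 : u ξ = t (Nat.find h) ξ := by simp only [u]; rw [dif_pos h]
    rw [h1]
    exact (hresij _ _ (Nat.find_min' h hξ) ξ (Nat.find_spec h)).symm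
  have hu' : ∀ ξ, δ ≤ ξ → u ξ = 0 := by
    intro ξ hξ
    have h : ¬ ∃ i, ξ < g i := by
      rintro ⟨i, hi⟩
      exact absurd (lt_trans hi (hgδ i)) (not_lt.2 hξ)
    simp only [u]; rw [dif_neg h]
  have htr : ∀ i, res (g i) (t i) = t i := fun i => (hT _ (hG i _ _ (hSG i)).1).1
  have hui : ∀ i, res (g i) u = t i := by
    intro i
    rw [← htr i]
    exact res_eq_iff.2 (hu i)
  refine ⟨u, ⟨?_, ?_, ?_, ?_⟩, hui 0, ?_, fun i => ⟨F i, by rw [hui i]; exact hSG i⟩⟩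
  · funext ξ
    unfold res
    split_ifs with h1
    · rfl
    · exact (hu' ξ (not_lt.1 h1)).symm
  · intro ξ hξ
    obtain ⟨i, hi⟩ := hcof ξ hξ
    rw [← res_res hi.le u, hui i]
    exact (hT _ (hG i _ _ (hSG i)).1).2.1 ξ hi
  · intro ξ hξ η hη hxe
    obtain ⟨i, hi⟩ := hcof ξ hξ
    obtain ⟨j, hj⟩ := hcof η hη
    have hi' : ξ < g (max i j) := lt_of_lt_of_le hi (hg.monotone (le_max_left _ _))
    have hj' : η < g (max i j) := lt_of_lt_of_le hj (hg.monotone (le_max_right _ _))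
    rw [hu _ _ hi', hu _ _ hj'] at hxe
    exact (hT _ (hG _ _ _ (hSG (max i j))).1).2.2.1 hi' hj' hxe
  · have hsub : (⋃ i, (F i : Set ℕ)) ⊆ (u '' Iio δ)ᶜ := by
      intro m hm
      obtain ⟨i, hi⟩ := mem_iUnion.1 hm
      rintro ⟨ξ, hξ, hm'⟩
      obtain ⟨j, hj⟩ := hcof ξ hξ
      have hj' : ξ < g (max i j) := lt_of_lt_of_le hj (hg.monotone (le_max_right _ _))
      rw [hu _ _ hj'] at hm'
      exact (hG _ _ _ (hSG (max i j))).2 m (hFm.monotone (le_max_left i j) hi) ⟨ξ, hj', hm'⟩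
    apply Set.Infinite.mono hsub
    intro hfin
    have hb : ∀ i, (F i).card ≤ hfin.toFinset.card := by
      intro i
      apply Finset.card_le_card
      intro m hm
      rw [Set.Finite.mem_toFinset]
      exact mem_iUnion.2 ⟨i, hm⟩
    have hc : ∀ i, i ≤ (F i).card := by
      intro i
      induction i with
      | zero => exact Nat.zero_le _
      | succ i ih => exact lt_of_le_of_lt ih (Finset.card_lt_card (hFF i))
    have := (hc (hfin.toFinset.card + 1)).trans (hb _)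
    omega
  · intro m hm
    rintro ⟨ξ, hξ, hm'⟩
    obtain ⟨j, hj⟩ := hcof ξ hξ
    rw [hu _ _ hj] at hm'
    exact (hG _ _ _ (hSG j)).2 m (hFm.monotone (Nat.zero_le j) hm) ⟨ξ, hj, hm'⟩

/-- distinct representatives with bounds -/
theorem sdr {X I : Type*} {J : Set I} (hJ : J.Countable) (R : I → Set X) (bd : I → ℕ) :
    ∃ (L : Set X) (k : X → ℕ), L.Countable ∧ (∀ x ∈ L, ∃ i ∈ J, x ∈ R i) ∧
      ∀ i ∈ J, (R i).Infinite → ∃ x ∈ L, x ∈ R i ∧ bd i ≤ k x := by
  classical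
  set J' : Set I := {i ∈ J | (R i).Infinite} with hJ'
  have hJ'c : J'.Countable := hJ.mono fun i hi => hi.1
  rcases J'.eq_empty_or_nonempty with he | hne
  · refine ⟨∅, fun _ => 0, countable_empty, by simp, fun i hi hinf => ?_⟩
    exfalso
    have : i ∈ J' := ⟨hi, hinf⟩
    rw [he] at this
    exact this
  obtain ⟨e, he⟩ := hJ'c.exists_eq_range hne
  have heJ : ∀ n, e n ∈ J' := fun n => by rw [he]; exact mem_range_self n
  have hex : ∀ (n : ℕ) (ih : ∀ m : ℕ, m < n → X), ∃ y ∈ R (e n), ∀ m (h : m < n), y ≠ ih m h := by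
    intro n ih
    obtain ⟨y, hy, hy'⟩ := (heJ n).2.exists_notMem_finset
      (Finset.univ.image (fun i : Fin n => ih i i.2))
    refine ⟨y, hy, fun m hm hym => hy' ?_⟩
    rw [Finset.mem_image]
    exact ⟨⟨m, hm⟩, Finset.mem_univ _, hym.symm⟩
  let x : ℕ → X := fun n => Nat.strongRecOn n (fun n ih => Classical.choose (hex n ih))
  have hx : ∀ n, x n ∈ R (e n) ∧ ∀ m < n, x n ≠ x m := by
    intro n
    have h1 : x n = Classical.choose (hex n (fun m _ => x m)) := by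
      simp only [x]
      rw [Nat.strongRecOn_eq]
    have h2 := Classical.choose_spec (hex n (fun m _ => x m))
    rw [← h1] at h2
    exact h2
  have hinj : Function.Injective x := by
    intro m n hmn
    rcases lt_trichotomy m n with h | h | h
    · exact absurd hmn.symm ((hx n).2 m h)
    · exact h
    · exact absurd hmn ((hx m).2 n h)
  refine ⟨range x, fun y => if h : ∃ n, x n = y then bd (e (Classical.choose h)) else 0,
    countable_range x, ?_, ?_⟩
  · rintro _ ⟨n, rfl⟩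
    exact ⟨e n, (heJ n).1, (hx n).1⟩
  · intro i hi hinf
    have : i ∈ J' := ⟨hi, hinf⟩
    rw [he] at this
    obtain ⟨n, rfl⟩ := this
    refine ⟨x n, mem_range_self n, (hx n).1, ?_⟩
    have h : ∃ m, x m = x n := ⟨n, rfl⟩
    have h2 : Classical.choose h = n := hinj (Classical.choose_spec h)
    simp only [dif_pos h, h2, le_refl]

end Pool.Agent.H78.Cat
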