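import Pool.Agent.H78.Cat.Sub

namespace Pool.Agent.H78.Cat

open Set

/-- every node is extended by a member of `K`, also avoiding a finite set -/
def Dns (T K : Lev) : Prop :=
  ∀ ξ, ∀ t ∈ T ξ, ∀ F : Finset ℕ, (∀ m ∈ F, m ∉ t '' Iio ξ) →
    ∃ σ, ξ ≤ σ ∧ ∃ s, s ∈ K σ ∧ s ∈ T σ ∧ res ξ s = t ∧ ∀ m ∈ F, m ∉ s '' Iio σ

def Dset (π : W1 → ℕ → W1) (T K : Lev) : Set W1 :=
  {δ | Lim δ ∧ (∀ ξ < δ, ∀ j, π ξ j < δ) ∧ ∀ ξ < δ, ∀ t ∈ T ξ, ∀ F : Finset ℕ,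
    (∀ m ∈ F, m ∉ t '' Iio ξ) →
    ∃ σ, σ < δ ∧ ξ ≤ σ ∧ ∃ s, s ∈ K σ ∧ s ∈ T σ ∧ res ξ s = t ∧ ∀ m ∈ F, m ∉ s '' Iio σ}

theorem exists_sup {a : ℕ → W1} (ha : StrictMono a) : ∃ δ, (∀ n, a n < δ) ∧ ∀ ζ < δ, ∃ n, ζ < a n := by
  obtain ⟨b, hb⟩ := bdd (countable_range a)
  let U : Set W1 := {x | ∀ n, a n < x}
  have hU : U.Nonempty := ⟨b, fun n => hb _ (mem_range_self n)⟩
  refine ⟨(wellFounded_lt (α := W1)).min U hU, (wellFounded_lt (α := W1)).min_mem U hU, ?_⟩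
  intro ζ hζ
  by_contra hc
  push Not at hc
  apply (wellFounded_lt (α := W1)).not_lt_min U (x := ζ) ?_ hζ
  intro n
  exact lt_of_lt_of_le (ha (Nat.lt_succ_self n)) (hc (n + 1))

theorem inter_club {C0 : Set W1} (hunb : ∀ ξ, ∃ η ∈ C0, ξ < η)
    (hcls : ∀ δ, (∃ ξ, ξ < δ) → (∀ ξ < δ, ∃ η ∈ C0, ξ < η ∧ η < δ) → δ ∈ C0) (h : W1 → W1)
    (ξ : W1) : ∃ δ ∈ C0, ξ < δ ∧ Lim δ ∧ ∀ ζ < δ, h ζ < δ := by
  have key : ∀ a : W1, ∃ b ∈ C0, a < b ∧ ∀ ζ ≤ a, h ζ < b := by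
    intro a
    have hc : (insert a (h '' (Iic a))).Countable := by
      apply Countable.insert
      apply Countable.image
      have : Iic a = insert a (Iio a) := by
        ext x
        simp [le_iff_eq_or_lt]
      rw [this]
      exact (seg a).insert a
    obtain ⟨b0, hb0⟩ := bdd hc
    obtain ⟨b, hb, hb'⟩ := hunb b0
    exact ⟨b, hb, (hb0 a (mem_insert _ _)).trans hb',
      fun ζ hζ => (hb0 _ (mem_insert_of_mem _ ⟨ζ, hζ, rfl⟩)).trans hb'⟩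
  choose nx n1 n2 n3 using key
  let a : ℕ → W1 := fun n => Nat.rec (motive := fun _ => W1) (nx ξ) (fun _ x => nx x) n
  have ha0 : a 0 = nx ξ := rfl
  have has : ∀ n, a (n + 1) = nx (a n) := fun n => rfl
  have hmono : StrictMono a := strictMono_nat_of_lt_succ fun n => by rw [has]; exact n2 _
  have haC : ∀ n, a n ∈ C0 := by
    intro n
    cases n with
    | zero => rw [ha0]; exact n1 _
    | succ n => rw [has]; exact n1 _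
  obtain ⟨δ, d1, d2⟩ := exists_sup hmono
  have hξ : ξ < δ := lt_trans (by rw [ha0]; exact n2 ξ) (d1 0)
  refine ⟨δ, hcls δ ⟨ξ, hξ⟩ ?_, hξ, ⟨⟨ξ, hξ⟩, ?_⟩, ?_⟩
  · intro ζ hζ
    obtain ⟨n, hn⟩ := d2 ζ hζ
    exact ⟨a n, haC n, hn, d1 n⟩
  · intro ζ hζ
    obtain ⟨n, hn⟩ := d2 ζ hζ
    exact ⟨a n, hn, d1 n⟩
  · intro ζ hζ
    obtain ⟨n, hn⟩ := d2 ζ hζ
    exact lt_trans (by rw [has]; exact n3 _ ζ hn.le) (d1 (n + 1))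

theorem dset_unb {C0 : Set W1} (hunb : ∀ ξ, ∃ η ∈ C0, ξ < η)
    (hcls : ∀ δ, (∃ ξ, ξ < δ) → (∀ ξ < δ, ∃ η ∈ C0, ξ < η ∧ η < δ) → δ ∈ C0)
    (π : W1 → ℕ → W1) {T K : Lev} (hT : ∀ ξ, (T ξ).Countable) (hD : Dns T K) (ξ : W1) :
    ∃ δ ∈ C0, δ ∈ Dset π T K ∧ ξ < δ := by
  classical
  have key : ∀ ξ : W1, ∀ t : W1 → ℕ, ∀ F : Finset ℕ, ∃ σ, t ∈ T ξ → (∀ m ∈ F, m ∉ t '' Iio ξ) →
      ξ ≤ σ ∧ ∃ s, s ∈ K σ ∧ s ∈ T σ ∧ res ξ s = t ∧ ∀ m ∈ F, m ∉ s '' Iio σ := by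
    intro ξ t F
    by_cases h : t ∈ T ξ ∧ ∀ m ∈ F, m ∉ t '' Iio ξ
    · obtain ⟨σ, hσ⟩ := hD ξ t h.1 F h.2
      exact ⟨σ, fun _ _ => hσ⟩
    · exact ⟨ξ, fun h1 h2 => absurd ⟨h1, h2⟩ h⟩
  choose w hw using key
  have hb : ∀ ξ : W1, ∃ b, (∀ j, π ξ j < b) ∧ ∀ t ∈ T ξ, ∀ F, w ξ t F < b := by
    intro ξ
    have hc : (range (π ξ) ∪ ⋃ t ∈ T ξ, range (w ξ t)).Countable := by
      apply (countable_range _).union
      exact (hT ξ).biUnion fun t _ => countable_range _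
    obtain ⟨b, hb⟩ := bdd hc
    refine ⟨b, fun j => hb _ (Or.inl (mem_range_self j)), fun t ht F => hb _ (Or.inr ?_)⟩
    simp only [mem_iUnion]
    exact ⟨t, ht, mem_range_self F⟩
  choose h h1 h2 using hb
  obtain ⟨δ, d1, d2, d3, d4⟩ := inter_club hunb hcls h ξ
  refine ⟨δ, d1, ⟨d3, fun ξ hξ j => (h1 ξ j).trans (d4 ξ hξ), ?_⟩, d2⟩
  intro ξ hξ t ht F hF
  obtain ⟨e1, e2⟩ := hw ξ t F ht hF
  exact ⟨w ξ t F, (h2 ξ t ht F).trans (d4 ξ hξ), e1, e2⟩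

theorem dset_cls (π : W1 → ℕ → W1) (T K : Lev) (δ : W1) (h0 : ∃ ξ, ξ < δ)
    (h : ∀ ξ < δ, ∃ η ∈ Dset π T K, ξ < η ∧ η < δ) : δ ∈ Dset π T K := by
  refine ⟨⟨h0, ?_⟩, ?_, ?_⟩
  · intro ξ hξ
    obtain ⟨η, _, h1, h2⟩ := h ξ hξ
    exact ⟨η, h1, h2⟩
  · intro ξ hξ j
    obtain ⟨η, hη, h1, h2⟩ := h ξ hξ
    exact (hη.2.1 ξ h1 j).trans h2
  · intro ξ hξ t ht F hF
    obtain ⟨η, hη, h1, h2⟩ := h ξ hξ
    obtain ⟨σ, e1, e2⟩ := hη.2.2 ξ h1 t ht F hF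
    exact ⟨σ, e1.trans h2, e2⟩

/-- the code of `K` and `D` -/
def code (π : W1 → ℕ → W1) (T K : Lev) (D : Set W1) : Set W1 :=
  {x | ∃ γ j, x = π γ (j + 1) ∧ enumOf (T γ) j ∈ K γ} ∪ {x | ∃ γ ∈ D, x = π γ 0}

theorem good_of {S : W1 → Set (Set W1)} {π : W1 → ℕ → W1}
    (hπ : ∀ a i b j, π a i = π b j → a = b ∧ i = j) {T : Lev} {k : Prm}
    (t1 : ∀ δ, ¬ Lim δ → T δ = Br T δ) (t2 : ∀ δ, T δ ⊆ Br T δ) (t3 : ∀ δ, (T δ).Countable)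
    (t3' : ∀ δ, (T δ).Nonempty)
    (t4 : ∀ ξ δ, ξ < δ → Ext T ξ δ)
    (t5 : ∀ δ, Lim δ → ∀ S1 ∈ insert ∅ (S δ), ∀ S2 ∈ insert ∅ (S δ), ∀ ξ < δ, ∀ v ∈ T ξ,
        ∀ F : Finset ℕ, (RS T k (decK π T S1) (decC π S1 S2) δ ξ v F).Infinite →
        ∃ u ∈ T δ, u ∈ RS T k (decK π T S1) (decC π S1 S2) δ ξ v F ∧ ∀ m ∈ F, m < k δ u)
    {K : Lev} (hK : ∀ ξ, K ξ ⊆ T ξ) (hD : Dns T K) {C0 : Set W1}
    (hunb : ∀ ξ, ∃ η ∈ C0, ξ < η)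
    (hcls : ∀ δ, (∃ ξ, ξ < δ) → (∀ ξ < δ, ∃ η ∈ C0, ξ < η ∧ η < δ) → δ ∈ C0)
    (hg : ∀ δ ∈ C0, code π T K (Dset π T K) ∩ Iio δ ∈ S δ ∧ C0 ∩ Iio δ ∈ S δ) :
    Good T k K (insert ⊥ (C0 ∩ Dset π T K)) := by
  have hsucc : ∀ η, Br T (Order.succ η) ⊆ T (Order.succ η) := by
    intro η
    rw [← t1 (Order.succ η)]
    intro hh
    obtain ⟨a, ha, hb⟩ := hh.2 η (Order.lt_succ η)
    exact absurd (Order.succ_le_of_lt ha) (not_le.2 hb)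
  have hmem : ∀ {γ : W1}, γ ∈ insert ⊥ (C0 ∩ Dset π T K) → γ ≠ ⊥ → γ ∈ C0 ∧ γ ∈ Dset π T K := by
    intro γ h h0
    rcases h with h | h
    · exact absurd h h0
    · exact h
  refine ⟨t2, hsucc, ?_, mem_insert _ _, ?_, ?_, ?_, ?_, ?_⟩
  · intro δ hδ ξ hξ t ht F hF
    have hdk : decC π ∅ ∅ = {⊥} := by
      unfold decC
      simp
    have hinf := rs_inf k (decK π T ∅) hδ (fun ζ _ => t2 ζ) (fun ζ _ => hsucc ζ)
      (fun ζ η hζη _ => t4 ζ η hζη) hξ ht hF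
    rw [← hdk] at hinf
    obtain ⟨u, hu1, hu2, hu3⟩ := t5 δ hδ ∅ (mem_insert _ _) ∅ (mem_insert _ _) ξ hξ t ht F hinf
    exact ⟨u, hu1, hu2.2.1, hu2.2.2.2, hu3⟩
  · intro ξ
    obtain ⟨δ, h1, h2, h3⟩ := dset_unb hunb hcls π t3 hD ξ
    exact ⟨δ, mem_insert_of_mem _ ⟨h1, h2⟩, h3⟩
  · intro δ h0 h
    have h' : ∀ ξ < δ, ∃ η, (η ∈ C0 ∧ η ∈ Dset π T K) ∧ ξ < η ∧ η < δ := by
      intro ξ hξ
      obtain ⟨η, hη, h1, h2⟩ := h ξ hξ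
      exact ⟨η, hmem hη (fun h => by rw [h] at h1; exact not_lt_bot h1), h1, h2⟩
    apply mem_insert_of_mem
    refine ⟨hcls δ h0 ?_, dset_cls π T K δ h0 ?_⟩
    · intro ξ hξ
      obtain ⟨η, hη, h1, h2⟩ := h' ξ hξ
      exact ⟨η, hη.1, h1, h2⟩
    · intro ξ hξ
      obtain ⟨η, hη, h1, h2⟩ := h' ξ hξ
      exact ⟨η, hη.2, h1, h2⟩
  · intro γ hγ h0
    exact (hmem hγ h0).2.1
  · intro γ hγ h0
    exact (hmem hγ h0).2.2.2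
  · intro γ hγ h0 hlim ξ hξ v hv F hinf
    obtain ⟨hγC, hγD⟩ := hmem hγ h0
    obtain ⟨g1, g2⟩ := hg γ hγC
    set X0 := code π T K (Dset π T K) with hX0
    have hb : ⊥ < γ := bot_lt_iff_ne_bot.2 h0
    have hKd : ∀ ζ < γ, decK π T (X0 ∩ Iio γ) ζ = K ζ := by
      intro ζ hζ
      ext u
      constructor
      · rintro ⟨j, rfl, hj⟩
        rcases hj.1 with ⟨a, i, hai, hi⟩ | ⟨a, _, hai⟩
        · obtain ⟨e1, e2⟩ := hπ _ _ _ _ hai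
          rw [e1, show j = i by omega]
          exact hi
        · obtain ⟨_, e2⟩ := hπ _ _ _ _ hai
          omega
      · intro hu
        have : u ∈ range (enumOf (T ζ)) := by
          rw [range_enumOf (t3 ζ) (t3' ζ)]; exact hK ζ hu
        obtain ⟨j, hj⟩ := this
        refine ⟨j, hj.symm, Or.inl ⟨ζ, j, rfl, by rw [hj]; exact hu⟩, hγD.2.1 ζ hζ (j + 1)⟩
    have hCd : decC π (X0 ∩ Iio γ) (C0 ∩ Iio γ) = insert ⊥ (C0 ∩ Dset π T K) ∩ Iio γ := by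
      ext a
      constructor
      · rintro (h | ⟨⟨h1, h2⟩, h3⟩)
        · rw [h]; exact ⟨mem_insert _ _, hb⟩
        · refine ⟨mem_insert_of_mem _ ⟨h1, ?_⟩, h2⟩
          rcases h3.1 with ⟨b, i, hai, _⟩ | ⟨b, hb, hai⟩
          · obtain ⟨_, e2⟩ := hπ _ _ _ _ hai
            omega
          · obtain ⟨e1, _⟩ := hπ _ _ _ _ hai
            rw [e1]; exact hb
      · rintro ⟨h | ⟨h1, h1'⟩, h2⟩
        · exact Or.inl h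
        · exact Or.inr ⟨⟨h1, h2⟩, Or.inr ⟨a, h1', rfl⟩, hγD.2.1 a h2 0⟩
    set C := insert ⊥ (C0 ∩ Dset π T K) with hCdef
    have hN1 : ∀ a a', a < γ → Nxt (decC π (X0 ∩ Iio γ) (C0 ∩ Iio γ)) a a' →
        Nxt C a a' ∧ a' < γ := by
      intro a a' _ hn
      rw [hCd] at hn
      refine ⟨⟨hn.1.1, hn.2.1.1, hn.2.2.1, ?_⟩, hn.2.1.2⟩
      intro x hx hax
      rcases lt_or_ge x γ with h | h
      · exact hn.2.2.2 x ⟨hx, h⟩ hax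
      · exact (lt_of_lt_of_le hn.2.1.2 h).le
    have hN2 : ∀ a a', a < γ → Nxt C a a' →
        Nxt (decC π (X0 ∩ Iio γ) (C0 ∩ Iio γ)) a a' ∧ a' < γ := by
      intro a a' ha hn
      have ha' : a' < γ := by
        obtain ⟨η, hη, h1, h2⟩ := hlim a ha
        exact lt_of_le_of_lt (hn.2.2.2 η hη h1) h2
      rw [hCd]
      exact ⟨⟨⟨hn.1, ha⟩, ⟨hn.2.1, ha'⟩, hn.2.2.1, fun x hx hax => hn.2.2.2 x hx.1 hax⟩, ha'⟩
    have s1 := rs_sub (T := T) (T' := T) (k := k) (k' := k) (K := K)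
      (K' := decK π T (X0 ∩ Iio γ)) (δ := γ) (fun _ _ => rfl) (fun _ _ => rfl)
      (fun ζ hζ => (hKd ζ hζ).symm) hN1 ξ v F
    have s2 := rs_sub (T := T) (T' := T) (k := k) (k' := k) (K' := K)
      (K := decK π T (X0 ∩ Iio γ)) (δ := γ) (fun _ _ => rfl) (fun _ _ => rfl)
      hKd hN2 ξ v F
    obtain ⟨u, hu1, hu2, hu3⟩ := t5 γ hγD.1 (X0 ∩ Iio γ) (mem_insert_of_mem _ g1) (C0 ∩ Iio γ)
      (mem_insert_of_mem _ g2) ξ hξ v hv F (hinf.mono s1)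
    exact ⟨u, hu1, s2 hu2, hu3⟩

theorem exists_pairing : ∃ π : W1 → ℕ → W1, ∀ a i b j, π a i = π b j → a = b ∧ i = j := by
  have h1 : Cardinal.mk W1 = Cardinal.aleph 1 := Cardinal.mk_ord_toType _
  have h2 : Cardinal.mk (W1 × ℕ) ≤ Cardinal.mk W1 := by
    rw [Cardinal.mk_prod, Cardinal.lift_id, Cardinal.lift_id, Cardinal.mk_nat, h1]
    exact (Cardinal.mul_eq_left (Cardinal.aleph0_le_aleph 1) (Cardinal.aleph0_le_aleph 1)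
      Cardinal.aleph0_ne_zero).le
  obtain ⟨f⟩ := (Cardinal.le_def _ _).1 h2
  refine ⟨fun a i => f (a, i), fun a i b j h => ?_⟩
  have := f.injective h
  rw [Prod.mk.injEq] at this
  exact this

theorem ch_of {S : W1 → Set (Set W1)} (hS : ∀ δ, (S δ).Countable)
    (h : ∀ X : Set W1, ∃ C : Set W1, (∀ ξ, ∃ η ∈ C, ξ < η) ∧ ∀ δ ∈ C, X ∩ Iio δ ∈ S δ) :
    Cardinal.continuum.{0} = Cardinal.aleph 1 := by
  apply le_antisymm _ Cardinal.aleph_one_le_continuum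
  have h1 : Cardinal.mk W1 = Cardinal.aleph 1 := Cardinal.mk_ord_toType _
  have : Infinite W1 := by
    rw [Cardinal.infinite_iff, h1]; exact Cardinal.aleph0_le_aleph 1
  obtain ⟨e⟩ : Nonempty (ℕ ↪ W1) := ⟨Infinite.natEmbedding W1⟩
  obtain ⟨b, hb⟩ := bdd (countable_range e)
  have hf : ∀ X : Set ℕ, e '' X ∈ ⋃ δ, S δ := by
    intro X
    obtain ⟨C, hC, hC'⟩ := h (e '' X)
    obtain ⟨δ, hδ, hbδ⟩ := hC b
    have : e '' X ∩ Iio δ = e '' X := by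
      apply inter_eq_left.2
      rintro _ ⟨n, _, rfl⟩
      exact (hb _ (mem_range_self n)).trans hbδ
    rw [← this]
    exact mem_iUnion.2 ⟨δ, hC' δ hδ⟩
  have h2 : Cardinal.mk (Set ℕ) ≤ Cardinal.mk (⋃ δ, S δ : Set (Set W1)) := by
    refine Cardinal.mk_le_of_injective (f := fun X : Set ℕ => (⟨e '' X, hf X⟩ : (⋃ δ, S δ : Set (Set W1)))) ?_
    intro X Y hXY
    have : e '' X = e '' Y := congrArg Subtype.val hXY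
    exact e.injective.image_injective this
  have h3 : Cardinal.mk (⋃ δ, S δ : Set (Set W1)) ≤ Cardinal.aleph 1 := by
    refine (Cardinal.mk_iUnion_le_sum_mk).trans ?_
    refine (Cardinal.sum_le_sum _ (fun _ : W1 => Cardinal.aleph0) (fun δ => Cardinal.le_aleph0_iff_set_countable.2 (hS δ))).trans ?_
    rw [Cardinal.sum_const', h1]
    exact (Cardinal.mul_eq_left (Cardinal.aleph0_le_aleph 1) (Cardinal.aleph0_le_aleph 1)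
      Cardinal.aleph0_ne_zero).le
  have h4 : Cardinal.mk (Set ℕ) = Cardinal.continuum := by
    rw [Cardinal.mk_set, Cardinal.mk_nat, Cardinal.two_power_aleph0]
  rw [← h4]
  exact h2.trans h3

end Pool.Agent.H78.Cat
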