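import Mathlib

/-!
# Jensen's principle diamond plus gives an Aronszajn tree satisfying CAT, and CH

Trees are downwards closed sets of functions from countable ordinals to the natural numbers.
-/

namespace Pool.Agent.H78.CatDefs

open Set

/-- The countable ordinals, as a well-ordered type: the order type is the initial ordinal of
`ℵ₁`, that is `ω₁`. -/
abbrev W1 : Type := (Cardinal.aleph 1).ord.ToType

/-- Closed unbounded subsets of `ω₁`. -/
structure IsClub (C : Set W1) : Prop where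
  unbounded : ∀ ξ, ∃ η ∈ C, ξ < η
  closed : ∀ δ, (∃ ξ, ξ < δ) → (∀ ξ < δ, ∃ η ∈ C, ξ < η ∧ η < δ) → δ ∈ C

/-- Jensen's principle `◇⁺`: there are countable families `S δ` of subsets of `δ`, for `δ < ω₁`,
such that for every `X ⊆ ω₁` there is a closed unbounded set `C` with
`X ∩ δ ∈ S δ` and `C ∩ δ ∈ S δ` for all `δ ∈ C`. -/
def DiamondPlus : Prop :=
  ∃ S : W1 → Set (Set W1), (∀ δ, (S δ).Countable) ∧ (∀ δ, ∀ X ∈ S δ, X ⊆ Iio δ) ∧
    ∀ X : Set W1, ∃ C : Set W1, IsClub C ∧ ∀ δ ∈ C, X ∩ Iio δ ∈ S δ ∧ C ∩ Iio δ ∈ S δ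

/-- A member of `^{<ω₁}ω`: a function `fn` from a countable ordinal `ht` (its height) to `ℕ`. -/
structure Node where
  /-- the height, that is the domain -/
  ht : W1
  /-- the function -/
  fn : Iio ht → ℕ

/-- The tree order: `y` extends `x`. -/
def Node.Le (x y : Node) : Prop :=
  ∃ h : x.ht ≤ y.ht, ∀ ξ : Iio x.ht, y.fn ⟨ξ.1, lt_of_lt_of_le ξ.2 h⟩ = x.fn ξ

/-- `z` is the meet `x ∧ y`: it is a common restriction of `x` and `y`, and `x`, `y` are both
defined and different at the height of `z` (which is therefore `Δ(x, y)`). -/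
def IsMeet (z x y : Node) : Prop :=
  z.Le x ∧ z.Le y ∧ ∃ (hx : z.ht < x.ht) (hy : z.ht < y.ht), x.fn ⟨z.ht, hx⟩ ≠ y.fn ⟨z.ht, hy⟩

/-- Aronszajn trees: downwards closed subtrees of `^{<ω₁}ω` of height `ω₁`, with countable levels
and without uncountable chains. -/
structure IsAronszajn (T : Set Node) : Prop where
  down : ∀ y ∈ T, ∀ x : Node, x.Le y → x ∈ T
  level_nonempty : ∀ α : W1, ∃ x ∈ T, x.ht = α
  level_countable : ∀ α : W1, {x : Node | x ∈ T ∧ x.ht = α}.Countable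
  no_chain : ∀ A ⊆ T, (∀ x ∈ A, ∀ y ∈ A, x.Le y ∨ y.Le x) → A.Countable

/-- The coloring axiom for the tree `T`: for every `K ⊆ T` there is an uncountable antichain
`A ⊆ T` with all meets of distinct elements in `K`, or all of them in `T \ K`. -/
def SatisfiesCAT (T : Set Node) : Prop :=
  ∀ K ⊆ T, ∃ A ⊆ T, ¬ A.Countable ∧ (∀ x ∈ A, ∀ y ∈ A, x ≠ y → ¬ x.Le y) ∧
    ((∀ x ∈ A, ∀ y ∈ A, x ≠ y → ∃ z ∈ K, IsMeet z x y) ∨
      (∀ x ∈ A, ∀ y ∈ A, x ≠ y → ∃ z ∈ T \ K, IsMeet z x y))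

end Pool.Agent.H78.CatDefs
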