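import Pool.Agent.H78.Cat.Club
import Pool.Agent.H78.Cat.Defs

namespace Pool.Agent.H78.CatFinal

open Set

open Pool.Agent.H78.CatDefs (IsClub DiamondPlus Node IsMeet IsAronszajn SatisfiesCAT)

/-- the countable ordinals -/
abbrev W1 : Type := Pool.Agent.H78.CatDefs.W1

open Pool.Agent.H78

/-- the zero-padded function of a node -/
noncomputable def pad (x : Node) : W1 → ℕ := fun ξ => if h : ξ < x.ht then x.fn ⟨ξ, h⟩ else 0

/-- the restriction of a function to `Iio α` -/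
def toNode (α : W1) (u : W1 → ℕ) : Node := ⟨α, fun ξ => u ξ.1⟩

theorem pad_apply {x : Node} {ξ : W1} (h : ξ < x.ht) : pad x ξ = x.fn ⟨ξ, h⟩ := by
  simp only [pad, dif_pos h]

theorem pad_toNode (α : W1) (u : W1 → ℕ) : pad (toNode α u) = Cat.res α u := by
  funext ξ
  unfold pad Cat.res toNode
  simp only
  split_ifs <;> rfl

theorem toNode_pad (x : Node) : toNode x.ht (pad x) = x := by
  obtain ⟨α, f⟩ := x
  unfold toNode
  congr 1
  funext ξ
  exact pad_apply (x := ⟨α, f⟩) ξ.2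

theorem toNode_res {α : W1} (u : W1 → ℕ) : toNode α (Cat.res α u) = toNode α u := by
  unfold toNode
  congr 1
  funext ξ
  exact Cat.res_apply ξ.2

theorem le_iff {x y : Node} : x.Le y ↔ x.ht ≤ y.ht ∧ ∀ ξ < x.ht, pad y ξ = pad x ξ := by
  constructor
  · rintro ⟨h, h'⟩
    refine ⟨h, fun ξ hξ => ?_⟩
    rw [pad_apply hξ, pad_apply (lt_of_lt_of_le hξ h)]
    exact h' ⟨ξ, hξ⟩
  · rintro ⟨h, h'⟩
    refine ⟨h, fun ξ => ?_⟩
    have := h' ξ.1 ξ.2
    rw [pad_apply (x := x) ξ.2, pad_apply (x := y) (lt_of_lt_of_le ξ.2 h)] at this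
    exact this

/-- the official tree of a level function -/
def off (T : Cat.Lev) : Set Node := {x | pad x ∈ T x.ht}

theorem toNode_mem {T : Cat.Lev} (hT : ∀ δ, T δ ⊆ Cat.Br T δ) {α : W1} {u : W1 → ℕ}
    (hu : u ∈ T α) : toNode α u ∈ off T := by
  show pad (toNode α u) ∈ T α
  rw [pad_toNode, (hT α hu).1]
  exact hu

theorem antichain_of {T : Cat.Lev} (hT : ∀ δ, T δ ⊆ Cat.Br T δ) (x : W1 → W1 → ℕ) (α0 : W1)
    (hx : ∀ α, α0 ≤ α → x α ∈ T (Order.succ α)) (Z : Set Node)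
    (hZ : ∀ α β Δ, α0 ≤ α → α0 ≤ β → Δ ≤ α → Δ ≤ β → Cat.res Δ (x α) = Cat.res Δ (x β) →
      x α Δ ≠ x β Δ → toNode Δ (x α) ∈ Z) :
    ∃ A ⊆ off T, ¬ A.Countable ∧ (∀ x ∈ A, ∀ y ∈ A, x ≠ y → ¬ x.Le y) ∧
      ∀ x ∈ A, ∀ y ∈ A, x ≠ y → ∃ z ∈ Z, IsMeet z x y := by
  have hn : ∃ n : ℕ, ¬ {α | α0 ≤ α ∧ x α α = n}.Countable := by
    by_contra hc
    push Not at hc
    apply Cat.unc
    have h1 : (univ : Set W1) ⊆ Iio α0 ∪ ⋃ n : ℕ, {α | α0 ≤ α ∧ x α α = n} := by
      intro α _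
      rcases lt_or_ge α α0 with h | h
      · exact Or.inl h
      · exact Or.inr (mem_iUnion.2 ⟨x α α, h, rfl⟩)
    exact ((Cat.seg α0).union (countable_iUnion hc)).mono h1
  obtain ⟨n, hn⟩ := hn
  set U : Set W1 := {α | α0 ≤ α ∧ x α α = n} with hU
  have hpad : ∀ α, α0 ≤ α → pad (toNode (Order.succ α) (x α)) = x α := by
    intro α hα
    rw [pad_toNode, (hT _ (hx α hα)).1]
  have hanti : ∀ α ∈ U, ∀ β ∈ U, α ≠ β →
      ¬ (toNode (Order.succ α) (x α)).Le (toNode (Order.succ β) (x β)) := by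
    rintro α ⟨ha, han⟩ β ⟨hb, hbn⟩ hne hle
    rw [le_iff, hpad α ha, hpad β hb] at hle
    obtain ⟨h1, h2⟩ := hle
    have h1' : α ≤ β := Order.succ_le_succ_iff.1 h1
    have h3 : x β α = x β β := by
      rw [h2 α (Order.lt_succ α), han, hbn]
    have h4 := (hT _ (hx β hb)).2.2.1 (lt_of_le_of_lt h1' (Order.lt_succ β))
      (Order.lt_succ β) h3
    exact hne h4
  refine ⟨(fun α => toNode (Order.succ α) (x α)) '' U, ?_, ?_, ?_, ?_⟩
  · rintro _ ⟨α, hα, rfl⟩
    exact toNode_mem hT (hx α hα.1)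
  · intro hc
    apply hn
    refine (mapsTo_image (fun α => toNode (Order.succ α) (x α)) U).countable_of_injOn ?_ hc
    intro α _ β _ h
    have : Order.succ α = Order.succ β := congrArg Node.ht h
    exact Order.succ_injective this
  · rintro _ ⟨α, hα, rfl⟩ _ ⟨β, hβ, rfl⟩ hne
    exact hanti α hα β hβ (fun h => hne (by rw [h]))
  · rintro _ ⟨α, hα, rfl⟩ _ ⟨β, hβ, rfl⟩ hne
    have hab : α ≠ β := fun h => hne (by rw [h])
    have hex : {ξ : W1 | ξ ≤ α ∧ ξ ≤ β ∧ x α ξ ≠ x β ξ}.Nonempty := by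
      by_contra hc
      rw [not_nonempty_iff_eq_empty] at hc
      have hc' : ∀ ξ, ξ ≤ α → ξ ≤ β → x α ξ = x β ξ := by
        intro ξ h1 h2
        by_contra h3
        have : ξ ∈ {ξ : W1 | ξ ≤ α ∧ ξ ≤ β ∧ x α ξ ≠ x β ξ} := ⟨h1, h2, h3⟩
        rw [hc] at this
        exact this
      rcases le_total α β with h | h
      · apply hanti α hα β hβ hab
        rw [le_iff, hpad α hα.1, hpad β hβ.1]
        refine ⟨Order.succ_le_succ h, fun ξ hξ => (hc' ξ (Order.lt_succ_iff.1 hξ)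
          ((Order.lt_succ_iff.1 hξ).trans h)).symm⟩
      · apply hanti β hβ α hα hab.symm
        rw [le_iff, hpad α hα.1, hpad β hβ.1]
        refine ⟨Order.succ_le_succ h, fun ξ hξ => hc' ξ ((Order.lt_succ_iff.1 hξ).trans h)
          (Order.lt_succ_iff.1 hξ)⟩
    set Δ := (wellFounded_lt (α := W1)).min _ hex with hΔ
    obtain ⟨d1, d2, d3⟩ := (wellFounded_lt (α := W1)).min_mem _ hex
    have hmin : ∀ ξ < Δ, x α ξ = x β ξ := by
      intro ξ hξ
      by_contra h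
      exact (wellFounded_lt (α := W1)).not_lt_min {ξ : W1 | ξ ≤ α ∧ ξ ≤ β ∧ x α ξ ≠ x β ξ}
        (x := ξ) ⟨hξ.le.trans d1, hξ.le.trans d2, h⟩ hξ
    refine ⟨toNode Δ (x α), hZ α β Δ hα.1 hβ.1 d1 d2 (Cat.res_eq_iff.2 hmin) d3, ?_, ?_, ?_⟩
    · rw [le_iff, hpad α hα.1, pad_toNode]
      exact ⟨d1.trans (Order.le_succ α), fun ξ hξ => (Cat.res_apply hξ).symm⟩
    · rw [le_iff, hpad β hβ.1, pad_toNode]
      exact ⟨d2.trans (Order.le_succ β), fun ξ hξ => by
        rw [Cat.res_apply (γ := Δ) hξ]; exact (hmin ξ hξ).symm⟩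
    · exact ⟨lt_of_le_of_lt d1 (Order.lt_succ α), lt_of_le_of_lt d2 (Order.lt_succ β), d3⟩

theorem aronszajn_of {T : Cat.Lev} (hT : ∀ δ, T δ ⊆ Cat.Br T δ) (hc : ∀ δ, (T δ).Countable)
    (hne : ∀ δ, (T δ).Nonempty) : IsAronszajn (off T) := by
  refine ⟨?_, ?_, ?_, ?_⟩
  · intro y hy x hxy
    rw [le_iff] at hxy
    obtain ⟨h1, h2⟩ := hxy
    have hx : pad x = Cat.res x.ht (pad y) := by
      rw [← toNode_pad x, pad_toNode]
      exact (Cat.res_eq_iff.2 fun ξ hξ => (h2 ξ hξ).symm)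
    show pad x ∈ T x.ht
    rw [hx]
    rcases h1.lt_or_eq with h | h
    · exact (hT _ hy).2.1 x.ht h
    · rw [h, (hT _ hy).1]; exact hy
  · intro α
    obtain ⟨u, hu⟩ := hne α
    exact ⟨toNode α u, toNode_mem hT hu, rfl⟩
  · intro α
    refine MapsTo.countable_of_injOn (t := T α) (f := pad) ?_ ?_ (hc α)
    · rintro x ⟨hx, rfl⟩
      exact hx
    · rintro x ⟨_, hx⟩ y ⟨_, hy⟩ h
      rw [← toNode_pad x, ← toNode_pad y, h, hx, hy]
  · intro A hA hch
    by_contra hunc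
    have hinj : InjOn Node.ht A := by
      intro x hx y hy hxy
      rcases hch x hx y hy with h | h
      · rw [le_iff] at h
        rw [← toNode_pad x, ← toNode_pad y, hxy, ← toNode_res (pad x), ← toNode_res (pad y)]
        congr 1
        exact Cat.res_eq_iff.2 fun ξ hξ => (h.2 ξ (by rw [hxy]; exact hξ)).symm
      · rw [le_iff] at h
        rw [← toNode_pad x, ← toNode_pad y, hxy, ← toNode_res (pad x), ← toNode_res (pad y)]
        congr 1
        exact Cat.res_eq_iff.2 fun ξ hξ => h.2 ξ hξ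
    have hunb : ∀ α : W1, ∃ x ∈ A, α < x.ht := by
      intro α
      by_contra hcon
      push Not at hcon
      apply hunc
      refine MapsTo.countable_of_injOn (t := insert α (Iio α)) (f := Node.ht) ?_ hinj
        ((Cat.seg α).insert α)
      intro x hx
      rcases (hcon x hx).lt_or_eq with h | h
      · exact Or.inr h
      · exact Or.inl h
    choose x hx hxα using hunb
    have hf : Function.Injective (fun α => pad (x α) α) := by
      have key : ∀ α β, α < β → pad (x α) α ≠ pad (x β) β := by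
        intro α β hαβ h
        have h1 : pad (x α) α = pad (x β) α := by
          rcases hch (x α) (hx α) (x β) (hx β) with h | h
          · rw [le_iff] at h
            exact (h.2 α (hxα α)).symm
          · rw [le_iff] at h
            exact h.2 α (hαβ.trans (hxα β))
        rw [h1] at h
        have := (hT _ (hA (hx β))).2.2.1 (hαβ.trans (hxα β)) (hxα β) h
        exact absurd this hαβ.ne
      intro α β h
      rcases lt_trichotomy α β with h' | h' | h'
      · exact absurd h (key α β h')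
      · exact h'
      · exact absurd h.symm (key β α h')
    apply Cat.unc
    exact MapsTo.countable_of_injOn (mapsTo_univ _ _) hf.injOn (countable_univ (α := ℕ))

/-- **Main theorem.** Jensen's principle `◇⁺` implies the continuum hypothesis together with the
existence of an Aronszajn tree that satisfies the coloring axiom CAT. -/
theorem cat_of_diamondPlus (h : DiamondPlus) :
    Cardinal.continuum.{0} = Cardinal.aleph 1 ∧ ∃ T : Set Node, IsAronszajn T ∧ SatisfiesCAT T := by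
  classical
  obtain ⟨S, hS, hS2, hg⟩ := h
  refine ⟨Cat.ch_of hS fun X => ?_, ?_⟩
  · obtain ⟨C, hC, hC'⟩ := hg X
    exact ⟨C, hC.1, fun δ hδ => (hC' δ hδ).1⟩
  obtain ⟨π, hπ⟩ := Cat.exists_pairing
  obtain ⟨T, k, t1, t2, t3, t4, t5⟩ := Cat.tree_exists S hS hS2 π
  have hroot : (fun _ => 0 : W1 → ℕ) ∈ T ⊥ := by
    rw [t1 ⊥ (fun h => by obtain ⟨ξ, hξ⟩ := h.1; exact not_lt_bot hξ)]
    have himg : (fun _ => 0 : W1 → ℕ) '' Iio ⊥ = ∅ := by
      rw [Iio_bot, image_empty]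
    refine ⟨?_, fun ξ hξ => absurd hξ not_lt_bot,
      fun ξ hξ => absurd (mem_Iio.1 hξ) not_lt_bot, ?_⟩
    · funext ξ
      unfold Cat.res
      split_ifs <;> rfl
    · rw [himg, compl_empty]
      exact infinite_univ
  have t3' : ∀ δ, (T δ).Nonempty := by
    intro δ
    rcases eq_or_ne δ ⊥ with h | h
    · rw [h]; exact ⟨_, hroot⟩
    · obtain ⟨u, hu, _⟩ := t4 ⊥ δ (bot_lt_iff_ne_bot.2 h) _ hroot ∅ (by simp)
      exact ⟨u, hu⟩
  refine ⟨off T, aronszajn_of t2 t3 t3', ?_⟩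
  intro K hK
  let Kl : Cat.Lev := fun ξ => {u | u ∈ T ξ ∧ toNode ξ u ∈ K}
  by_cases hD : Cat.Dns T Kl
  · obtain ⟨C0, hC0, hC0'⟩ := hg (Cat.code π T Kl (Cat.Dset π T Kl))
    have H := Cat.good_of hπ t1 t2 t3 t3' t4 t5 (K := Kl) (fun ξ u hu => hu.1) hD hC0.1 hC0.2 hC0'
    have hex : ∀ α : W1, ∃ u, Cat.InB T k Kl (insert ⊥ (C0 ∩ Cat.Dset π T Kl)) (Order.succ α) u := by
      intro α
      obtain ⟨γ, hγ, hαγ⟩ := H.unb (Order.succ α)
      have h0 : γ ≠ ⊥ := fun h => by rw [h] at hαγ; exact not_lt_bot hαγ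
      obtain ⟨t, ht⟩ := H.nonempty ⟨_, hroot⟩ hγ h0
      exact ⟨_, H.inB_res ht hαγ.le⟩
    choose x hx using hex
    obtain ⟨A, a1, a2, a3, a4⟩ := antichain_of t2 x ⊥ (fun α _ => (hx α).1) K (by
      intro α β Δ _ _ hα hβ he hne
      have := H.split (hx α) (hx β) (Order.lt_succ_iff.2 hα) (Order.lt_succ_iff.2 hβ) he hne
      have h2 := this.2
      rw [toNode_res] at h2
      exact h2)
    exact ⟨A, a1, a2, a3, Or.inl a4⟩
  · unfold Cat.Dns at hD
    push Not at hD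
    obtain ⟨ξ, t, ht, F, hF, hno⟩ := hD
    have hex : ∀ α : W1, ∃ u, ξ ≤ α → u ∈ T (Order.succ α) ∧ Cat.res ξ u = t ∧
        ∀ m ∈ F, m ∉ u '' Iio (Order.succ α) := by
      intro α
      by_cases h : ξ ≤ α
      · obtain ⟨u, hu⟩ := t4 ξ (Order.succ α) (Order.lt_succ_iff.2 h) t ht F hF
        exact ⟨u, fun _ => hu⟩
      · exact ⟨t, fun h' => absurd h' h⟩
    choose x hx using hex
    obtain ⟨A, a1, a2, a3, a4⟩ := antichain_of t2 x ξ (fun α hα => (hx α hα).1) (off T \ K) (by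
      intro α β Δ hξα hξβ hα hβ he hne
      obtain ⟨x1, x2, x3⟩ := hx α hξα
      obtain ⟨y1, y2, y3⟩ := hx β hξβ
      have hξΔ : ξ ≤ Δ := by
        by_contra hc
        apply hne
        have h1 := Cat.res_eq_iff.1 (x2.trans y2.symm) Δ (not_le.1 hc)
        exact h1
      have hres : Cat.res Δ (x α) ∈ T Δ := (t2 _ x1).2.1 Δ (Order.lt_succ_iff.2 hα)
      have hmem : toNode Δ (x α) ∈ off T := by
        rw [← toNode_res]; exact toNode_mem t2 hres
      refine ⟨hmem, fun hKm => ?_⟩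
      have hKl : Cat.res Δ (x α) ∈ Kl Δ := ⟨hres, by rw [toNode_res]; exact hKm⟩
      obtain ⟨m, hm, hm'⟩ := hno Δ hξΔ _ hKl hres (by rw [Cat.res_res hξΔ, x2])
      apply x3 m hm
      rw [Cat.res_image le_rfl] at hm'
      obtain ⟨ζ, hζ, hζm⟩ := hm'
      exact ⟨ζ, lt_trans hζ (Order.lt_succ_iff.2 hα), hζm⟩)
    exact ⟨A, a1, a2, a3, Or.inr a4⟩

end Pool.Agent.H78.CatFinal
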