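import Pool.Agent.H78.Cat.Tree

namespace Pool.Agent.H78.Cat

open Set

/-- the properties of the tree, the set `K` of nodes and the closed set `C` -/
structure Good (T : Lev) (k : Prm) (K : Lev) (C : Set W1) : Prop where
  br : ∀ δ, T δ ⊆ Br T δ
  suc : ∀ η, Br T (Order.succ η) ⊆ T (Order.succ η)
  ext : ∀ δ, Lim δ → ∀ ξ < δ, ∀ t ∈ T ξ, ∀ F : Finset ℕ, (∀ m ∈ F, m ∉ t '' Iio ξ) →
    ∃ u ∈ T δ, res ξ u = t ∧ (∀ m ∈ F, m ∉ u '' Iio δ) ∧ ∀ m ∈ F, m < k δ u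
  bot : ⊥ ∈ C
  unb : ∀ ξ, ∃ η ∈ C, ξ < η
  cls : ∀ δ, (∃ ξ, ξ < δ) → (∀ ξ < δ, ∃ η ∈ C, ξ < η ∧ η < δ) → δ ∈ C
  lim : ∀ γ ∈ C, γ ≠ ⊥ → Lim γ
  dns : ∀ γ ∈ C, γ ≠ ⊥ → ∀ ξ < γ, ∀ t ∈ T ξ, ∀ F : Finset ℕ, (∀ m ∈ F, m ∉ t '' Iio ξ) →
    ∃ σ, σ < γ ∧ ξ ≤ σ ∧ ∃ s, s ∈ K σ ∧ s ∈ T σ ∧ res ξ s = t ∧ ∀ m ∈ F, m ∉ s '' Iio σ
  gen : ∀ γ ∈ C, γ ≠ ⊥ → (∀ ξ < γ, ∃ η ∈ C, ξ < η ∧ η < γ) → ∀ ξ < γ, ∀ v ∈ T ξ,
    ∀ F : Finset ℕ, (RS T k K C γ ξ v F).Infinite →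
    ∃ u ∈ T γ, u ∈ RS T k K C γ ξ v F ∧ ∀ m ∈ F, m < k γ u

variable {T : Lev} {k : Prm} {K : Lev} {C : Set W1}

theorem Good.dat_spec (H : Good T k K C) {γ γ' : W1} (hn : Nxt C γ γ') {b : W1 → ℕ}
    (hb : b ∈ T γ) : IsDat T k K γ γ' b (dat T k K γ γ' b) := by
  classical
  apply Classical.epsilon_spec (p := IsDat T k K γ γ' b)
  have hγ' : γ' ≠ ⊥ := fun h => by
    have := hn.2.2.1
    rw [h] at this
    exact not_lt_bot this
  obtain ⟨σ, h1, h2, s, hs1, hs2, hs3, hs4⟩ := H.dns γ' hn.2.1 hγ' γ hn.2.2.1 b hb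
    ((Finset.range (k γ b)).filter (fun m => m ∉ b '' Iio γ))
    (fun m hm => (Finset.mem_filter.1 hm).2)
  have hlim := H.lim γ' hn.2.1 hγ'
  have key : ∀ n, ∃ u : W1 → ℕ, n ∉ s '' Iio σ → u ∈ T γ' ∧ res σ u = s ∧ u σ = n ∧
      ∀ m < n, m ∉ s '' Iio σ → m ∉ u '' Iio γ' ∧ m < k γ' u := by
    intro n
    by_cases hns : n ∈ s '' Iio σ
    · exact ⟨fun _ => 0, fun h => absurd hns h⟩
    obtain ⟨s1, s2, s3, s4⟩ := snoc_mem hs2 (H.br σ hs2) hns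
    obtain ⟨u, hu1, hu2, hu3, hu4⟩ := H.ext γ' hlim (Order.succ σ) (lim_succ hlim h1) _
      (H.suc σ s1) ((Finset.range n).filter (fun m => m ∉ s '' Iio σ)) (by
        intro m hm
        rw [s4]
        rw [Finset.mem_filter, Finset.mem_range] at hm
        rintro (h | h)
        · omega
        · exact hm.2 h)
    refine ⟨u, fun _ => ⟨hu1, ?_, ?_, fun m hm hm' => ?_⟩⟩
    · rw [← res_res (Order.le_succ σ) u, hu2, s2]
    · have : u σ = res (Order.succ σ) u σ := (res_apply (Order.lt_succ σ)).symm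
      rw [this, hu2, s3]
    · have hmF : m ∈ (Finset.range n).filter (fun m => m ∉ s '' Iio σ) := by
        rw [Finset.mem_filter, Finset.mem_range]; exact ⟨hm, hm'⟩
      exact ⟨hu3 m hmF, hu4 m hmF⟩
  choose τ hτ using key
  refine ⟨((σ, s), τ), h2, h1, hs1, hs2, hs3, ?_, hτ⟩
  intro m hm hmb
  exact hs4 m (by rw [Finset.mem_filter, Finset.mem_range]; exact ⟨hm, hmb⟩)

theorem Good.inB_res (H : Good T k K C) {η η' : W1} {u : W1 → ℕ} (hu : InB T k K C η u)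
    (h : η' ≤ η) : InB T k K C η' (res η' u) := by
  rcases h.lt_or_eq with h | h
  · refine ⟨(H.br η hu.1).2.1 η' h, ?_⟩
    intro γ γ' hn hγ
    obtain ⟨n, hn1, hn2⟩ := hu.2 γ γ' hn (hγ.trans h)
    rw [res_res hγ.le]
    refine ⟨n, hn1, ?_⟩
    rw [res_res (min_le_right _ _)]
    exact res_mono (min_le_min_left _ h.le) hn2
  · subst h
    rw [(H.br η' hu.1).1]
    exact hu

theorem Good.inB_tau (H : Good T k K C) {γ γ' : W1} (hn : Nxt C γ γ') {b : W1 → ℕ}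
    (hb : InB T k K C γ b) {n : ℕ}
    (hns : n ∉ (dat T k K γ γ' b).1.2 '' Iio (dat T k K γ γ' b).1.1) :
    InB T k K C γ' ((dat T k K γ γ' b).2 n) := by
  have hd := H.dat_spec hn hb.1
  have h6 := hd.h6 n hns
  have hresb : res γ ((dat T k K γ γ' b).2 n) = b := by
    rw [← res_res hd.h1, h6.2.1, hd.h4]
  refine ⟨h6.1, ?_⟩
  intro γ1 γ1' hn1 hγ1
  have hle : γ1 ≤ γ := by
    by_contra h
    exact absurd (hn.2.2.2 γ1 hn1.1 (not_le.1 h)) (not_le.2 hγ1)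
  rcases hle.lt_or_eq with h | h
  · have h' : γ1' ≤ γ := hn1.2.2.2 γ hn.1 h
    obtain ⟨n', hn1', hn2'⟩ := hb.2 γ1 γ1' hn1 h
    rw [← res_res h.le, hresb]
    refine ⟨n', hn1', ?_⟩
    rw [min_eq_left h'] at hn2'
    rw [min_eq_left (h'.trans hn.2.2.1.le), ← hn2', ← res_res h', hresb]
  · subst h
    have hγ' : γ1' = γ' := le_antisymm (hn1.2.2.2 _ hn.2.1 hn.2.2.1)
      (hn.2.2.2 _ hn1.2.1 hn1.2.2.1)
    subst hγ'
    rw [hresb]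
    exact ⟨n, hns, rfl⟩

theorem Good.exists_last (H : Good T k K C) (ξ : W1) :
    ∃ γ ∈ C, γ ≤ ξ ∧ ∀ a ∈ C, a ≤ ξ → a ≤ γ := by
  let U : Set W1 := {ζ | ∀ a ∈ C, a ≤ ξ → a ≤ ζ}
  have hU : U.Nonempty := ⟨ξ, fun a _ h => h⟩
  let ζ := (wellFounded_lt (α := W1)).min U hU
  have hζ : ζ ∈ U := (wellFounded_lt (α := W1)).min_mem U hU
  have hmin : ∀ x ∈ U, ζ ≤ x := fun x hx =>
    not_lt.1 ((wellFounded_lt (α := W1)).not_lt_min U hx)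
  refine ⟨ζ, ?_, hmin ξ (fun a _ h => h), hζ⟩
  by_contra hc
  apply hc
  have hb : ⊥ < ζ := by
    rw [bot_lt_iff_ne_bot]
    intro h
    exact hc (h ▸ H.bot)
  refine H.cls ζ ⟨⊥, hb⟩ ?_
  intro x hx
  have hxU : x ∉ U := fun h => absurd (hmin x h) (not_le.2 hx)
  have : ∃ a ∈ C, a ≤ ξ ∧ x < a := by
    by_contra hcon
    push Not at hcon
    exact hxU fun a ha haξ => hcon a ha haξ
  obtain ⟨a, ha, haξ, hxa⟩ := this
  refine ⟨a, ha, hxa, lt_of_le_of_ne (hζ a ha haξ) ?_⟩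
  intro h
  exact hc (h ▸ ha)

theorem Good.exists_next (H : Good T k K C) {γ : W1} (hγ : γ ∈ C) : ∃ γ', Nxt C γ γ' := by
  obtain ⟨η, hη, hη'⟩ := H.unb γ
  let U : Set W1 := {ζ | ζ ∈ C ∧ γ < ζ}
  have hU : U.Nonempty := ⟨η, hη, hη'⟩
  refine ⟨(wellFounded_lt (α := W1)).min U hU, hγ, ((wellFounded_lt (α := W1)).min_mem U hU).1,
    ((wellFounded_lt (α := W1)).min_mem U hU).2, ?_⟩
  intro ξ hξ hlt
  exact not_lt.1 ((wellFounded_lt (α := W1)).not_lt_min U (x := ξ) ⟨hξ, hlt⟩)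

theorem Good.main (H : Good T k K C) : ∀ γ ∈ C, ∀ γ1 γ2, Nxt C γ1 γ2 → γ2 ≤ γ → ∀ b,
    InB T k K C γ1 b → ∀ F : Finset ℕ,
    (∀ m ∈ F, m ∉ (dat T k K γ1 γ2 b).1.2 '' Iio (dat T k K γ1 γ2 b).1.1) →
    ∀ n, (∀ m ∈ F, m < n) → n ∉ (dat T k K γ1 γ2 b).1.2 '' Iio (dat T k K γ1 γ2 b).1.1 →
    ∃ t, InB T k K C γ t ∧ res (dat T k K γ1 γ2 b).1.1 t = (dat T k K γ1 γ2 b).1.2 ∧
      t (dat T k K γ1 γ2 b).1.1 = n ∧ (∀ m ∈ F, m ∉ t '' Iio γ) ∧ ∀ m ∈ F, m < k γ t := by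
  intro γ
  induction γ using WellFoundedLT.induction with
  | ind γ ih =>
  intro hγC γ1 γ2 hn h2 b hb F hF n hnF hns
  have hd := H.dat_spec hn hb.1
  have h6 := hd.h6 n hns
  have hτB := H.inB_tau hn hb hns
  set d := dat T k K γ1 γ2 b with hddef
  rcases h2.eq_or_lt with h2 | h2
  · subst h2
    exact ⟨d.2 n, hτB, h6.2.1, h6.2.2.1, fun m hm => (h6.2.2.2 m (hnF m hm) (hF m hm)).1,
      fun m hm => (h6.2.2.2 m (hnF m hm) (hF m hm)).2⟩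
  by_cases hlim : ∀ ξ < γ, ∃ η ∈ C, ξ < η ∧ η < γ
  · -- limit of `C`
    have hγ0 : γ ≠ ⊥ := fun h => by rw [h] at h2; exact not_lt_bot h2
    have hF2 : ∀ m ∈ F, m ∉ d.2 n '' Iio γ2 ∧ m < k γ2 (d.2 n) :=
      fun m hm => h6.2.2.2 m (hnF m hm) (hF m hm)
    obtain ⟨γ3, hn3⟩ := H.exists_next hn.2.1
    have h3 : γ3 < γ := by
      obtain ⟨η, hη, h, h'⟩ := hlim γ2 h2
      exact lt_of_le_of_lt (hn3.2.2.2 η hη h) h'
    have hd' := H.dat_spec hn3 hτB.1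
    have hinf : (RS T k K C γ γ2 (d.2 n) F).Infinite := by
      apply infinite_of_val (dat T k K γ2 γ3 (d.2 n)).1.1
      intro M
      set d' := dat T k K γ2 γ3 (d.2 n) with hd'def
      obtain ⟨m, hm1, hm2, _⟩ := exists_avoid (H.br _ hd'.h3').2.2.2 F (max M (F.sup id + 1))
      have hmF : ∀ x ∈ F, x < m := by
        intro x hx
        have h1 : x ≤ F.sup id := Finset.le_sup (f := id) hx
        have h2 : F.sup id + 1 ≤ m := (le_max_right _ _).trans hm1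
        omega
      have hFs' : ∀ x ∈ F, x ∉ d'.1.2 '' Iio d'.1.1 := fun x hx =>
        hd'.h5 x (hF2 x hx).2 (hF2 x hx).1
      have h6' := hd'.h6 m hm2
      have hB' := H.inB_tau hn3 hτB (n := m) (by rw [← hd'def]; exact hm2)
      rw [← hd'def] at hB'
      obtain ⟨g, g1, g2, g3, g4⟩ := exists_seq (A := C ∩ Ico γ3 γ)
        ((seg γ).mono fun x hx => hx.2.2)
        (fun a ha => by
          obtain ⟨η, hη, h, h'⟩ := hlim a ha.2.2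
          exact ⟨η, ⟨hη, ha.2.1.trans h.le, h'⟩, h⟩)
        (a0 := γ3) ⟨hn3.2.1, le_rfl, h3⟩
      have hcof : ∀ ξ < γ, ∃ i, ξ < g i := by
        intro ξ hξ
        obtain ⟨η, hη, h, h'⟩ := hlim (max ξ γ3) (max_lt hξ h3)
        obtain ⟨i, hi⟩ := g4 η ⟨hη, (le_max_right _ _).trans h.le, h'⟩
        exact ⟨i, (lt_of_le_of_lt (le_max_left _ _) h).trans hi⟩
      obtain ⟨u, hu1, hu2, hu3, hu4⟩ := fusion (T := T) H.br (δ := γ) g1 (fun i => (g2 i).2.2)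
        hcof
        (fun i t F => InB T k K C (g i) t ∧ (∀ m ∈ F, m ∉ t '' Iio (g i)) ∧
          ∀ m ∈ F, m < k (g i) t)
        (fun i t F h => ⟨h.1.1, h.2.1⟩)
        (by
          rintro i t F' ⟨q1, q2, q3⟩
          obtain ⟨γ4, hn4⟩ := H.exists_next (g2 i).1
          have hd4 := H.dat_spec hn4 q1.1
          have hF4 : ∀ x ∈ F', x ∉ (dat T k K (g i) γ4 t).1.2 '' Iio (dat T k K (g i) γ4 t).1.1 :=
            fun x hx => hd4.h5 x (q3 x hx) (q2 x hx)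
          obtain ⟨m', _, hm', hmF'⟩ := exists_avoid (H.br _ hd4.h3').2.2.2 F' 0
          obtain ⟨n', hn1', hn2', _⟩ := exists_avoid (H.br _ hd4.h3').2.2.2 ∅
            ((insert m' F').sup id + 1)
          obtain ⟨t', r1, r2, _, r4, r5⟩ := ih (g (i + 1)) (g2 (i + 1)).2.2 (g2 (i + 1)).1 (g i)
            γ4 hn4 (hn4.2.2.2 _ (g2 (i + 1)).1 (g1 (Nat.lt_succ_self i))) t q1 (insert m' F')
            (by
              intro x hx
              rcases Finset.mem_insert.1 hx with rfl | hx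
              · exact hm'
              · exact hF4 x hx)
            n' (by
              intro x hx
              have : x ≤ (insert m' F').sup id := Finset.le_sup (f := id) hx
              omega) hn2'
          refine ⟨t', insert m' F', ⟨r1, r4, r5⟩, ?_, Finset.ssubset_insert hmF'⟩
          rw [← res_res hd4.h1, r2, hd4.h4])
        (t0 := d'.2 m) (F0 := F) (by
          rw [g3]
          exact ⟨hB', fun x hx => (h6'.2.2.2 x (hmF x hx) (hFs' x hx)).1,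
            fun x hx => (h6'.2.2.2 x (hmF x hx) (hFs' x hx)).2⟩)
      rw [g3] at hu2
      refine ⟨u, ⟨hu1, ?_, ?_, hu3⟩, ?_⟩
      · have e1 : res γ3 u = d'.2 m := hu2
        rw [← res_res (hn3.2.2.1.le) u, e1, ← res_res hd'.h1, h6'.2.1, hd'.h4]
      · intro η hη
        obtain ⟨i, hi⟩ := hcof η hη
        obtain ⟨_, q, _⟩ := hu4 i
        rw [← res_res hi.le u]
        exact H.inB_res q hi.le
      · have : u d'.1.1 = d'.2 m d'.1.1 := by rw [← hu2, res_apply hd'.h2]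
        rw [this, h6'.2.2.1]
        exact (le_max_left _ _).trans hm1
    obtain ⟨u, hu1, ⟨hu2, hu3, hu4, hu5⟩, hu6⟩ := H.gen γ hγC hγ0 hlim γ2 h2 (d.2 n) hτB.1 F hinf
    refine ⟨u, ⟨hu1, ?_⟩, ?_, ?_, hu5, hu6⟩
    · intro γa γb hnab hγa
      have hγb : γb < γ := by
        obtain ⟨η, hη, h, h'⟩ := hlim γa hγa
        exact lt_of_le_of_lt (hnab.2.2.2 η hη h) h'
      obtain ⟨n', hn1', hn2'⟩ := (hu4 γb hγb).2 γa γb hnab hnab.2.2.1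
      rw [res_res hnab.2.2.1.le] at hn1' hn2'
      rw [min_self, res_idem] at hn2'
      rw [min_eq_left hγb.le]
      exact ⟨n', hn1', hn2'⟩
    · rw [← res_res hd.h2.le u, hu3, h6.2.1]
    · have : u d.1.1 = res γ2 u d.1.1 := (res_apply hd.h2).symm
      rw [this, hu3, h6.2.2.1]
  · push Not at hlim
    obtain ⟨ξ, hξ, hξ'⟩ := hlim
    obtain ⟨γ3, h3C, h3ξ, h3⟩ := H.exists_last ξ
    have hn3 : Nxt C γ3 γ := by
      refine ⟨h3C, hγC, lt_of_le_of_lt h3ξ hξ, ?_⟩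
      intro a ha ha'
      apply hξ' a ha
      by_contra hc
      exact absurd (h3 a ha (not_lt.1 hc)) (not_le.2 ha')
    have h23 : γ2 ≤ γ3 := by
      by_contra hc
      exact absurd (hn3.2.2.2 γ2 hn.2.1 (not_le.1 hc)) (not_le.2 h2)
    obtain ⟨t3, q1, q2, q3, q4, q5⟩ := ih γ3 hn3.2.2.1 h3C γ1 γ2 hn h23 b hb F hF n hnF hns
    have hd3 := H.dat_spec hn3 q1.1
    obtain ⟨m, hm1, hm2, _⟩ := exists_avoid (H.br _ hd3.h3').2.2.2 ∅ (F.sup id + 1)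
    have h63 := hd3.h6 m hm2
    have hmF : ∀ x ∈ F, x < m := by
      intro x hx
      have : x ≤ F.sup id := Finset.le_sup (f := id) hx
      omega
    have hFs : ∀ x ∈ F, x ∉ (dat T k K γ3 γ t3).1.2 '' Iio (dat T k K γ3 γ t3).1.1 :=
      fun x hx => hd3.h5 x (q5 x hx) (q4 x hx)
    have hr3 : res γ3 ((dat T k K γ3 γ t3).2 m) = t3 := by
      rw [← res_res hd3.h1, h63.2.1, hd3.h4]
    have hσ3 : d.1.1 < γ3 := lt_of_lt_of_le hd.h2 h23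
    refine ⟨_, H.inB_tau hn3 q1 hm2, ?_, ?_, fun x hx => (h63.2.2.2 x (hmF x hx) (hFs x hx)).1,
      fun x hx => (h63.2.2.2 x (hmF x hx) (hFs x hx)).2⟩
    · rw [← res_res hσ3.le, hr3, q2]
    · rw [← q3, ← hr3, res_apply hσ3, hr3]

theorem Good.nonempty (H : Good T k K C) (hr : ∃ r, r ∈ T ⊥) {γ : W1} (hγ : γ ∈ C) (h0 : γ ≠ ⊥) :
    ∃ t, InB T k K C γ t := by
  obtain ⟨r, hr⟩ := hr
  obtain ⟨γ', hn⟩ := H.exists_next H.bot
  have hB : InB T k K C ⊥ r := ⟨hr, fun γ γ' _ h => absurd h not_lt_bot⟩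
  have hd := H.dat_spec hn hr
  obtain ⟨n, _, hn1, _⟩ := exists_avoid (H.br _ hd.h3').2.2.2 ∅ 0
  obtain ⟨t, ht, _⟩ := H.main γ hγ ⊥ γ' hn (hn.2.2.2 γ hγ (bot_lt_iff_ne_bot.2 h0)) r hB ∅
    (by simp) n (by simp) hn1
  exact ⟨t, ht⟩

theorem Good.split (H : Good T k K C) {η η' Δ : W1} {u u' : W1 → ℕ} (hu : InB T k K C η u)
    (hu' : InB T k K C η' u') (h : Δ < η) (h' : Δ < η') (he : res Δ u = res Δ u')
    (hne : u Δ ≠ u' Δ) : res Δ u ∈ K Δ := by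
  obtain ⟨γ, hγC, hγΔ, hγ⟩ := H.exists_last Δ
  obtain ⟨γ', hn⟩ := H.exists_next hγC
  have hΔγ' : Δ < γ' := by
    by_contra hc
    exact absurd (hγ γ' hn.2.1 (not_lt.1 hc)) (not_le.2 hn.2.2.1)
  have hee : res γ u' = res γ u := res_mono hγΔ he.symm
  obtain ⟨n, hn1, hn2⟩ := hu.2 γ γ' hn (lt_of_le_of_lt hγΔ h)
  obtain ⟨n', hn1', hn2'⟩ := hu'.2 γ γ' hn (lt_of_le_of_lt hγΔ h')
  rw [hee] at hn1' hn2'
  have hd := H.dat_spec hn ((H.br η hu.1).2.1 γ (lt_of_le_of_lt hγΔ h))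
  set d := dat T k K γ γ' (res γ u)
  have h6 := hd.h6 n hn1
  have h6' := hd.h6 n' hn1'
  have a1 : ∀ ξ ≤ Δ, u ξ = d.2 n ξ := fun ξ hξ => res_eq_iff.1 hn2 ξ
    (lt_of_le_of_lt hξ (lt_min hΔγ' h))
  have a2 : ∀ ξ ≤ Δ, u' ξ = d.2 n' ξ := fun ξ hξ => res_eq_iff.1 hn2' ξ
    (lt_of_le_of_lt hξ (lt_min hΔγ' h'))
  rcases lt_trichotomy d.1.1 Δ with hc | hc | hc
  · exfalso
    have e1 : d.2 n d.1.1 = d.2 n' d.1.1 := by
      rw [← a1 _ hc.le, ← a2 _ hc.le]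
      exact res_eq_iff.1 he _ hc
    rw [h6.2.2.1, h6'.2.2.1] at e1
    apply hne
    rw [a1 Δ le_rfl, a2 Δ le_rfl, e1]
  · have : res Δ u = d.1.2 := by
      rw [← h6.2.1, hc]
      exact res_eq_iff.2 fun ξ hξ => a1 ξ hξ.le
    rw [this, ← hc]
    exact hd.h3
  · exfalso
    apply hne
    rw [a1 Δ le_rfl, a2 Δ le_rfl]
    have e1 : d.2 n Δ = d.1.2 Δ := by rw [← h6.2.1, res_apply hc]
    have e2 : d.2 n' Δ = d.1.2 Δ := by rw [← h6'.2.1, res_apply hc]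
    rw [e1, e2]

end Pool.Agent.H78.Cat
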