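import Pool.Agent.H78.Cat.Basic

namespace Pool.Agent.H78.Cat

open Set

/-- `γ'` is the next element of `C` after `γ` -/
def Nxt (C : Set W1) (γ γ' : W1) : Prop := γ ∈ C ∧ γ' ∈ C ∧ γ < γ' ∧ ∀ ξ ∈ C, γ < ξ → γ' ≤ ξ

abbrev Lev := W1 → Set (W1 → ℕ)

abbrev Prm := W1 → (W1 → ℕ) → ℕ

/-- the data above a node `b` -/
structure IsDat (T : Lev) (k : Prm) (K : Lev) (γ γ' : W1) (b : W1 → ℕ)
    (d : (W1 × (W1 → ℕ)) × (ℕ → W1 → ℕ)) : Prop where
  h1 : γ ≤ d.1.1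
  h2 : d.1.1 < γ'
  h3 : d.1.2 ∈ K d.1.1
  h3' : d.1.2 ∈ T d.1.1
  h4 : res γ d.1.2 = b
  h5 : ∀ m < k γ b, m ∉ b '' Iio γ → m ∉ d.1.2 '' Iio d.1.1
  h6 : ∀ n, n ∉ d.1.2 '' Iio d.1.1 → d.2 n ∈ T γ' ∧ res d.1.1 (d.2 n) = d.1.2 ∧
    d.2 n d.1.1 = n ∧ ∀ m < n, m ∉ d.1.2 '' Iio d.1.1 → m ∉ d.2 n '' Iio γ' ∧ m < k γ' (d.2 n)

noncomputable def dat (T : Lev) (k : Prm) (K : Lev) (γ γ' : W1) (b : W1 → ℕ) :
    (W1 × (W1 → ℕ)) × (ℕ → W1 → ℕ) :=
  Classical.epsilon (IsDat T k K γ γ' b)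

/-- membership in the canonical subtree -/
def InB (T : Lev) (k : Prm) (K : Lev) (C : Set W1) (η : W1) (u : W1 → ℕ) : Prop :=
  u ∈ T η ∧ ∀ γ γ', Nxt C γ γ' → γ < η →
    ∃ n, n ∉ (dat T k K γ γ' (res γ u)).1.2 '' Iio (dat T k K γ γ' (res γ u)).1.1 ∧
      res (min γ' η) u = res (min γ' η) ((dat T k K γ γ' (res γ u)).2 n)

theorem isDat_imp {T T' : Lev} {k k' : Prm} {K K' : Lev} {δ : W1} (hT : ∀ ξ < δ, T ξ = T' ξ)
    (hk : ∀ ξ < δ, k ξ = k' ξ) (hK : ∀ ξ < δ, K ξ = K' ξ) {γ γ' : W1} (h : γ < γ') (h' : γ' < δ)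
    {b : W1 → ℕ} {d : (W1 × (W1 → ℕ)) × (ℕ → W1 → ℕ)} (hd : IsDat T k K γ γ' b d) :
    IsDat T' k' K' γ γ' b d := by
  obtain ⟨h1, h2, h3, h3', h4, h5, h6⟩ := hd
  refine ⟨h1, h2, ?_, ?_, h4, ?_, ?_⟩
  · rw [← hK _ (h2.trans h')]; exact h3
  · rw [← hT _ (h2.trans h')]; exact h3'
  · rw [← hk _ (h.trans h')]; exact h5
  · rw [← hT _ h', ← hk _ h']; exact h6

theorem dat_congr {T T' : Lev} {k k' : Prm} {K K' : Lev} {δ : W1} (hT : ∀ ξ < δ, T ξ = T' ξ)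
    (hk : ∀ ξ < δ, k ξ = k' ξ) (hK : ∀ ξ < δ, K ξ = K' ξ) {γ γ' : W1} (h : γ < γ') (h' : γ' < δ)
    (b : W1 → ℕ) : dat T k K γ γ' b = dat T' k' K' γ γ' b := by
  unfold dat
  congr 1
  funext d
  apply propext
  exact ⟨isDat_imp hT hk hK h h', isDat_imp (fun ξ hξ => (hT ξ hξ).symm)
    (fun ξ hξ => (hk ξ hξ).symm) (fun ξ hξ => (hK ξ hξ).symm) h h'⟩

theorem inB_imp {T T' : Lev} {k k' : Prm} {K K' : Lev} {δ : W1} (hT : ∀ ξ < δ, T ξ = T' ξ)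
    (hk : ∀ ξ < δ, k ξ = k' ξ) (hK : ∀ ξ < δ, K ξ = K' ξ) {C C' : Set W1}
    (hC : ∀ γ γ', γ < δ → Nxt C' γ γ' → Nxt C γ γ' ∧ γ' < δ) {η : W1} (hη : η < δ)
    {u : W1 → ℕ} (hu : InB T k K C η u) : InB T' k' K' C' η u := by
  refine ⟨by rw [← hT _ hη]; exact hu.1, ?_⟩
  intro γ γ' hn hγ
  obtain ⟨h1, h2⟩ := hC γ γ' (hγ.trans hη) hn
  obtain ⟨n, hn1, hn2⟩ := hu.2 γ γ' h1 hγ
  rw [dat_congr hT hk hK hn.2.2.1 h2] at hn1 hn2
  exact ⟨n, hn1, hn2⟩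

/-- branches inside the canonical subtree -/
def RS (T : Lev) (k : Prm) (K : Lev) (C : Set W1) (δ ξ : W1) (v : W1 → ℕ) (F : Finset ℕ) :
    Set (W1 → ℕ) :=
  {u | u ∈ Br T δ ∧ res ξ u = v ∧ (∀ η < δ, InB T k K C η (res η u)) ∧ ∀ m ∈ F, m ∉ u '' Iio δ}

theorem br_congr {T T' : Lev} {δ : W1} (hT : ∀ ξ < δ, T ξ = T' ξ) : Br T δ = Br T' δ := by
  ext u
  constructor
  · rintro ⟨h1, h2, h3⟩
    exact ⟨h1, fun ξ hξ => by rw [← hT ξ hξ]; exact h2 ξ hξ, h3⟩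
  · rintro ⟨h1, h2, h3⟩
    exact ⟨h1, fun ξ hξ => by rw [hT ξ hξ]; exact h2 ξ hξ, h3⟩

theorem rs_sub {T T' : Lev} {k k' : Prm} {K K' : Lev} {δ : W1} (hT : ∀ ξ < δ, T ξ = T' ξ)
    (hk : ∀ ξ < δ, k ξ = k' ξ) (hK : ∀ ξ < δ, K ξ = K' ξ) {C C' : Set W1}
    (hC : ∀ γ γ', γ < δ → Nxt C' γ γ' → Nxt C γ γ' ∧ γ' < δ) (ξ : W1) (v : W1 → ℕ)
    (F : Finset ℕ) : RS T k K C δ ξ v F ⊆ RS T' k' K' C' δ ξ v F := by
  rintro u ⟨h1, h2, h3, h4⟩
  exact ⟨by rw [← br_congr hT]; exact h1, h2, fun η hη => inB_imp hT hk hK hC hη (h3 η hη), h4⟩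

noncomputable def enumOf (A : Set (W1 → ℕ)) : ℕ → W1 → ℕ := Classical.epsilon fun e => range e = A

theorem range_enumOf {A : Set (W1 → ℕ)} (hA : A.Countable) (hne : A.Nonempty) :
    range (enumOf A) = A := by
  obtain ⟨e, he⟩ := hA.exists_eq_range hne
  exact Classical.epsilon_spec (p := fun e : ℕ → W1 → ℕ => range e = A) ⟨e, he.symm⟩

/-- decoding a family of sets of nodes -/
def decK (π : W1 → ℕ → W1) (T : Lev) (S1 : Set W1) : Lev :=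
  fun γ => {u | ∃ j, u = enumOf (T γ) j ∧ π γ (j + 1) ∈ S1}

/-- decoding a closed set -/
def decC (π : W1 → ℕ → W1) (S1 S2 : Set W1) : Set W1 := insert ⊥ (S2 ∩ {γ | π γ 0 ∈ S1})

abbrev Idx := (Set W1 × Set W1) × (W1 × (W1 → ℕ)) × Finset ℕ

def Ix (S : W1 → Set (Set W1)) (T : Lev) (δ : W1) : Set Idx :=
  {i | i.1.1 ∈ insert ∅ (S δ) ∧ i.1.2 ∈ insert ∅ (S δ) ∧ i.2.1.1 < δ ∧ i.2.1.2 ∈ T i.2.1.1}

def Rq (π : W1 → ℕ → W1) (T : Lev) (k : Prm) (δ : W1) (i : Idx) : Set (W1 → ℕ) :=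
  RS T k (decK π T i.1.1) (decC π i.1.1 i.1.2) δ i.2.1.1 i.2.1.2 i.2.2

/-- specification of a limit level -/
def Spec (S : W1 → Set (Set W1)) (π : W1 → ℕ → W1) (T : Lev) (k : Prm) (δ : W1)
    (p : Set (W1 → ℕ) × ((W1 → ℕ) → ℕ)) : Prop :=
  p.1.Countable ∧ p.1 ⊆ Br T δ ∧ ∀ i ∈ Ix S T δ, (Rq π T k δ i).Infinite →
    ∃ u ∈ p.1, u ∈ Rq π T k δ i ∧ ∀ m ∈ i.2.2, m < p.2 u

theorem ix_countable {S : W1 → Set (Set W1)} {T : Lev} {δ : W1} (hS : (S δ).Countable)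
    (hT : ∀ ξ < δ, (T ξ).Countable) : (Ix S T δ).Countable := by
  have h1 : (insert ∅ (S δ)).Countable := hS.insert ∅
  have h2 : (⋃ ξ ∈ Iio δ, (fun t => ((ξ, t) : W1 × (W1 → ℕ))) '' T ξ).Countable :=
    (seg δ).biUnion fun ξ hξ => (hT ξ hξ).image _
  have h3 : (univ : Set (Finset ℕ)).Countable := countable_univ
  apply ((h1.prod h1).prod (h2.prod h3)).mono
  rintro ⟨⟨a, b⟩, ⟨ξ, t⟩, F⟩ ⟨ha, hb, hξ, ht⟩
  refine ⟨⟨ha, hb⟩, ?_, mem_univ _⟩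
  simp only [mem_iUnion]
  exact ⟨ξ, hξ, t, ht, rfl⟩

theorem spec_exists {S : W1 → Set (Set W1)} (π : W1 → ℕ → W1) {T : Lev} (k : Prm) {δ : W1}
    (hS : (S δ).Countable) (hT : ∀ ξ < δ, (T ξ).Countable) : ∃ p, Spec S π T k δ p := by
  obtain ⟨L, kk, h1, h2, h3⟩ := sdr (ix_countable hS hT) (fun i => Rq π T k δ i)
    (fun i => i.2.2.sup id + 1)
  refine ⟨(L, kk), h1, ?_, ?_⟩
  · intro u hu
    obtain ⟨i, _, hi⟩ := h2 u hu
    exact hi.1
  · intro i hi hinf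
    obtain ⟨u, hu, hu', hb⟩ := h3 i hi hinf
    refine ⟨u, hu, hu', fun m hm => ?_⟩
    have : m ≤ i.2.2.sup id := Finset.le_sup (f := id) hm
    show m < kk u
    omega

theorem exists_rec {X : Type} [Inhabited X] (Ψ : W1 → (W1 → X) → X) :
    ∃ F : W1 → X, ∀ δ, F δ = Ψ δ (fun ξ => if ξ < δ then F ξ else default) := by
  classical
  let F : W1 → X := (wellFounded_lt (α := W1)).fix
    (fun δ ih => Ψ δ (fun ξ => if h : ξ < δ then ih ξ h else default))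
  refine ⟨F, fun δ => ?_⟩
  have h := (wellFounded_lt (α := W1)).fix_eq
    (fun δ (ih : ∀ y, y < δ → X) => Ψ δ (fun ξ => if h : ξ < δ then ih ξ h else default)) δ
  show (wellFounded_lt (α := W1)).fix _ δ = _
  rw [h]
  congr 1

/-- the level `η+1` node above `t` with last value `m` -/
theorem snoc_mem {T : Lev} {η : W1} {t : W1 → ℕ} (ht : t ∈ T η) (htb : t ∈ Br T η) {m : ℕ}
    (hm : m ∉ t '' Iio η) :
    Function.update t η m ∈ Br T (Order.succ η) ∧ res η (Function.update t η m) = t ∧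
      Function.update t η m η = m ∧
      Function.update t η m '' Iio (Order.succ η) = insert m (t '' Iio η) := by
  obtain ⟨h1, h2, h3, h4⟩ := htb
  have hu : ∀ ξ < η, Function.update t η m ξ = t ξ := fun ξ hξ =>
    Function.update_of_ne hξ.ne _ _
  have hself : Function.update t η m η = m := Function.update_self _ _ _
  have hres : res η (Function.update t η m) = t := by
    conv_rhs => rw [← h1]
    exact res_eq_iff.2 hu
  have him : Function.update t η m '' Iio (Order.succ η) = insert m (t '' Iio η) := by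
    ext n
    constructor
    · rintro ⟨ξ, hξ, rfl⟩
      rcases (Order.lt_succ_iff.1 (mem_Iio.1 hξ)).lt_or_eq with h | h
      · right; exact ⟨ξ, h, (hu ξ h).symm⟩
      · left; rw [h, hself]
    · rintro (rfl | ⟨ξ, hξ, rfl⟩)
      · exact ⟨η, Order.lt_succ η, hself⟩
      · exact ⟨ξ, lt_trans hξ (Order.lt_succ η), hu ξ hξ⟩
  refine ⟨⟨?_, ?_, ?_, ?_⟩, hres, hself, him⟩
  · funext ξ
    unfold res
    split_ifs with h
    · rfl
    · have h' : Order.succ η ≤ ξ := not_lt.1 h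
      have h'' : η < ξ := lt_of_lt_of_le (Order.lt_succ η) h'
      rw [Function.update_of_ne h''.ne', ← h1, res_apply_ge h''.le]
  · intro ξ hξ
    rcases (Order.lt_succ_iff.1 hξ).lt_or_eq with h | h
    · rw [← res_res h.le, hres]
      exact h2 ξ h
    · rw [h, hres]; exact ht
  · intro ξ hξ ζ hζ hx
    rcases (Order.lt_succ_iff.1 (mem_Iio.1 hξ)).lt_or_eq with h | h <;>
    rcases (Order.lt_succ_iff.1 (mem_Iio.1 hζ)).lt_or_eq with h' | h'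
    · rw [hu _ h, hu _ h'] at hx
      exact h3 h h' hx
    · rw [h', hu _ h, hself] at hx
      exact absurd ⟨ξ, h, hx⟩ hm
    · rw [h, hu _ h', hself] at hx
      exact absurd ⟨ζ, h', hx.symm⟩ hm
    · rw [h, h']
  · rw [him]
    intro hfin
    apply h4
    apply (hfin.insert m).subset
    intro n hn
    by_cases hnm : n = m
    · left; exact hnm
    · right
      rintro (h | h)
      · exact hnm h
      · exact hn h

theorem infinite_of_val {R : Set (W1 → ℕ)} (ξ : W1) (h : ∀ M : ℕ, ∃ u ∈ R, M ≤ u ξ) :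
    R.Infinite := by
  have h1 : ((fun u : W1 → ℕ => u ξ) '' R).Infinite := by
    apply Set.infinite_of_not_bddAbove
    rintro ⟨M, hM⟩
    obtain ⟨u, hu, hu'⟩ := h (M + 1)
    have := hM ⟨u, hu, rfl⟩
    simp only at this
    omega
  exact h1.of_image _

theorem exists_avoid {A : Set ℕ} (hA : Aᶜ.Infinite) (F : Finset ℕ) (M : ℕ) :
    ∃ m, M ≤ m ∧ m ∉ A ∧ m ∉ F := by
  obtain ⟨m, hm, hm'⟩ := hA.exists_notMem_finset (F ∪ Finset.range M)
  rw [Finset.mem_union, not_or, Finset.mem_range, not_lt] at hm'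
  exact ⟨m, hm'.2, hm, hm'.1⟩

/-- extension property from `ξ` to `δ` -/
def Ext (T : Lev) (ξ δ : W1) : Prop :=
  ∀ t ∈ T ξ, ∀ F : Finset ℕ, (∀ m ∈ F, m ∉ t '' Iio ξ) →
    ∃ u ∈ T δ, res ξ u = t ∧ ∀ m ∈ F, m ∉ u '' Iio δ

theorem nxt_bot {γ γ' : W1} (h : Nxt {⊥} γ γ') : False := by
  obtain ⟨h1, h2, h3, _⟩ := h
  rw [mem_singleton_iff] at h1 h2
  rw [h1, h2] at h3
  exact lt_irrefl _ h3

theorem rs_inf {T : Lev} (k : Prm) (K : Lev) {δ : W1} (hδ : Lim δ)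
    (hT : ∀ ξ < δ, T ξ ⊆ Br T ξ) (hT2 : ∀ ξ < δ, Br T (Order.succ ξ) ⊆ T (Order.succ ξ))
    (hE : ∀ ξ η, ξ < η → η < δ → Ext T ξ η) {ξ : W1} (hξ : ξ < δ) {t : W1 → ℕ} (ht : t ∈ T ξ)
    {F : Finset ℕ} (hF : ∀ m ∈ F, m ∉ t '' Iio ξ) : (RS T k K {⊥} δ ξ t F).Infinite := by
  apply infinite_of_val ξ
  intro M
  have htB := hT ξ hξ ht
  obtain ⟨m, hm1, hm2, hm3⟩ := exists_avoid htB.2.2.2 F M
  obtain ⟨s1, s2, s3, s4⟩ := snoc_mem ht htB hm2
  set t1 := Function.update t ξ m with ht1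
  have hsξ : Order.succ ξ < δ := lim_succ hδ hξ
  obtain ⟨g, g1, g2, g3, g4⟩ := exists_seq (A := Ico (Order.succ ξ) δ)
    ((seg δ).mono fun x hx => hx.2)
    (fun a ha => by
      obtain ⟨b, hb1, hb2⟩ := hδ.2 a ha.2
      exact ⟨b, ⟨ha.1.trans hb1.le, hb2⟩, hb1⟩)
    (a0 := Order.succ ξ) ⟨le_rfl, hsξ⟩
  -- a modified tree that is correct everywhere
  let T' : Lev := fun η => if η < δ then T η else ∅
  have hTT' : ∀ η < δ, T' η = T η := fun η hη => by simp only [T', if_pos hη]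
  have hT' : ∀ η, T' η ⊆ Br T' η := by
    intro η
    by_cases hη : η < δ
    · rw [hTT' η hη, br_congr (T := T') (T' := T) (fun ζ hζ => hTT' ζ (hζ.trans hη))]
      exact hT η hη
    · intro u hu
      simp only [T', if_neg hη] at hu
      exact absurd hu (notMem_empty u)
  obtain ⟨u, hu1, hu2, hu3, hu4⟩ := fusion (T := T') hT' (δ := δ) g1 (fun i => (g2 i).2)
    (fun ζ hζ => by
      obtain ⟨i, hi⟩ := g4 (max ζ (Order.succ ξ)) ⟨le_max_right _ _, max_lt hζ hsξ⟩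
      exact ⟨i, lt_of_le_of_lt (le_max_left _ _) hi⟩)
    (fun i t F => t ∈ T' (g i) ∧ ∀ m ∈ F, m ∉ t '' Iio (g i))
    (fun i t F h => h)
    (by
      rintro i t F ⟨h1, h2⟩
      have h1' : t ∈ T (g i) := by rw [← hTT' _ (g2 i).2]; exact h1
      obtain ⟨m', _, hm2', hm3'⟩ := exists_avoid (hT _ (g2 i).2 h1').2.2.2 F 0
      obtain ⟨t', ht', hr, hF'⟩ := hE (g i) (g (i + 1)) (g1 (Nat.lt_succ_self i)) (g2 (i + 1)).2
        t h1' (insert m' F) (by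
          intro m hm
          rcases Finset.mem_insert.1 hm with rfl | hm
          · exact hm2'
          · exact h2 m hm)
      refine ⟨t', insert m' F, ⟨?_, hF'⟩, hr, Finset.ssubset_insert hm3'⟩
      rw [hTT' _ (g2 _).2]; exact ht')
    (t0 := t1) (F0 := F) (by
      rw [g3]
      refine ⟨by rw [hTT' _ hsξ]; exact hT2 ξ hξ s1, ?_⟩
      intro m' hm'
      rw [s4]
      rintro (h | h)
      · rw [h] at hm'; exact hm3 hm'
      · exact hF m' hm' h)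
  rw [g3] at hu2
  have huB : u ∈ Br T δ := by
    rw [← br_congr (T := T') (T' := T) hTT']; exact hu1
  refine ⟨u, ⟨huB, ?_, ?_, hu3⟩, ?_⟩
  · rw [← res_res (Order.le_succ ξ) u, hu2, s2]
  · intro η hη
    exact ⟨huB.2.1 η hη, fun γ γ' hn _ => (nxt_bot hn).elim⟩
  · have : u ξ = t1 ξ := by
      rw [← hu2, res_apply (Order.lt_succ ξ)]
    rw [this, s3]; exact hm1

theorem br_succ_countable {T : Lev} {η : W1} (h : (T η).Countable) :
    (Br T (Order.succ η)).Countable := by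
  have h2 : ((T η) ×ˢ (univ : Set ℕ)).Countable := h.prod countable_univ
  have hm : MapsTo (fun u : W1 → ℕ => (res η u, u η)) (Br T (Order.succ η))
      ((T η) ×ˢ (univ : Set ℕ)) := by
    intro u hu
    exact ⟨hu.2.1 η (Order.lt_succ η), mem_univ _⟩
  refine hm.countable_of_injOn ?_ h2
  intro u hu v hv huv
  simp only [Prod.mk.injEq] at huv
  rw [← hu.1, ← hv.1, res_eq_iff]
  intro ξ hξ
  rcases (Order.lt_succ_iff.1 hξ).lt_or_eq with h | h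
  · exact res_eq_iff.1 huv.1 ξ h
  · rw [h]; exact huv.2

theorem tree_exists (S : W1 → Set (Set W1)) (hS : ∀ δ, (S δ).Countable)
    (hS2 : ∀ δ, ∀ X ∈ S δ, X ⊆ Iio δ) (π : W1 → ℕ → W1) :
    ∃ (T : Lev) (k : Prm), (∀ δ, ¬ Lim δ → T δ = Br T δ) ∧ (∀ δ, T δ ⊆ Br T δ) ∧
      (∀ δ, (T δ).Countable) ∧ (∀ ξ δ, ξ < δ → Ext T ξ δ) ∧
      (∀ δ, Lim δ → ∀ S1 ∈ insert ∅ (S δ), ∀ S2 ∈ insert ∅ (S δ), ∀ ξ < δ, ∀ v ∈ T ξ,
        ∀ F : Finset ℕ, (RS T k (decK π T S1) (decC π S1 S2) δ ξ v F).Infinite →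
        ∃ u ∈ T δ, u ∈ RS T k (decK π T S1) (decC π S1 S2) δ ξ v F ∧ ∀ m ∈ F, m < k δ u) := by
  classical
  obtain ⟨Fn, hFn⟩ := exists_rec (X := Set (W1 → ℕ) × ((W1 → ℕ) → ℕ))
    (fun δ f => if Lim δ then
      Classical.epsilon (Spec S π (fun ξ => (f ξ).1) (fun ξ => (f ξ).2) δ)
      else (Br (fun ξ => (f ξ).1) δ, fun _ => 0))
  set T : Lev := fun δ => (Fn δ).1 with hTdef
  set k : Prm := fun δ => (Fn δ).2 with hkdef
  let tr : W1 → W1 → Set (W1 → ℕ) × ((W1 → ℕ) → ℕ) :=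
    fun δ ξ => if ξ < δ then Fn ξ else default
  have htr : ∀ δ ξ, ξ < δ → tr δ ξ = Fn ξ := fun δ ξ h => by simp only [tr, if_pos h]
  have hnl : ∀ δ, ¬ Lim δ → T δ = Br T δ := by
    intro δ hδ
    have h1 : Fn δ = (Br (fun ξ => (tr δ ξ).1) δ, fun _ => 0) := by
      rw [hFn δ, if_neg hδ]
    have h2 : T δ = Br (fun ξ => (tr δ ξ).1) δ := by
      show (Fn δ).1 = _
      rw [h1]
    rw [h2]
    apply br_congr
    intro ξ hξ
    rw [htr δ ξ hξ]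
  have hl : ∀ δ, Lim δ → (∀ ξ < δ, (T ξ).Countable) →
      Spec S π (fun ξ => (tr δ ξ).1) (fun ξ => (tr δ ξ).2) δ (T δ, k δ) := by
    intro δ hδ hc
    have h1 : Fn δ = Classical.epsilon
        (Spec S π (fun ξ => (tr δ ξ).1) (fun ξ => (tr δ ξ).2) δ) := by
      rw [hFn δ, if_pos hδ]
    have h2 : (T δ, k δ) = Fn δ := rfl
    rw [h2, h1]
    apply Classical.epsilon_spec
    apply spec_exists π _ (hS δ)
    intro ξ hξ
    rw [htr δ ξ hξ]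
    exact hc ξ hξ
  -- the property G at `δ`
  have hG : ∀ δ, Lim δ → (∀ ξ < δ, (T ξ).Countable) → ∀ S1 ∈ insert ∅ (S δ),
      ∀ S2 ∈ insert ∅ (S δ), ∀ ξ < δ, ∀ v ∈ T ξ,
        ∀ F : Finset ℕ, (RS T k (decK π T S1) (decC π S1 S2) δ ξ v F).Infinite →
        ∃ u ∈ T δ, u ∈ RS T k (decK π T S1) (decC π S1 S2) δ ξ v F ∧ ∀ m ∈ F, m < k δ u := by
    intro δ hδ hc S1 hS1 S2 hS2' ξ hξ v hv F hinf
    obtain ⟨_, _, h3⟩ := hl δ hδ hc
    have hCδ : ∀ γ γ', γ < δ → Nxt (decC π S1 S2) γ γ' → Nxt (decC π S1 S2) γ γ' ∧ γ' < δ := by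
      intro γ γ' hγ hn
      refine ⟨hn, ?_⟩
      rcases hn.2.1 with h | h
      · exfalso
        rw [h] at hn
        exact not_lt_bot hn.2.2.1
      · rcases hS2' with h' | h'
        · rw [h'] at h
          exact absurd h.1 (notMem_empty _)
        · exact hS2 δ S2 h' h.1
    have hK : ∀ ζ < δ, decK π (fun ξ => (tr δ ξ).1) S1 ζ = decK π T S1 ζ := by
      intro ζ hζ
      unfold decK
      simp only [htr δ ζ hζ, hTdef]
    have e1 : ∀ ζ < δ, (tr δ ζ).1 = T ζ := fun ζ hζ => by rw [htr δ ζ hζ]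
    have e2 : ∀ ζ < δ, (tr δ ζ).2 = k ζ := fun ζ hζ => by rw [htr δ ζ hζ]
    have s1 := rs_sub (T := T) (T' := fun ξ => (tr δ ξ).1) (k := k) (k' := fun ξ => (tr δ ξ).2)
      (K := decK π T S1) (K' := decK π (fun ξ => (tr δ ξ).1) S1) (δ := δ)
      (fun ζ hζ => (e1 ζ hζ).symm) (fun ζ hζ => (e2 ζ hζ).symm) (fun ζ hζ => (hK ζ hζ).symm)
      hCδ ξ v F
    have s2 := rs_sub (T' := T) (T := fun ξ => (tr δ ξ).1) (k' := k) (k := fun ξ => (tr δ ξ).2)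
      (K' := decK π T S1) (K := decK π (fun ξ => (tr δ ξ).1) S1) (δ := δ)
      e1 e2 hK hCδ ξ v F
    obtain ⟨u, hu1, hu2, hu3⟩ := h3 ((S1, S2), (ξ, v), F) ⟨hS1, hS2', hξ, by
      show v ∈ (tr δ ξ).1
      rw [e1 ξ hξ]; exact hv⟩ (hinf.mono s1)
    exact ⟨u, hu1, s2 hu2, hu3⟩
  have hP : ∀ δ, (T δ).Countable ∧ T δ ⊆ Br T δ ∧ ∀ ξ < δ, Ext T ξ δ := by
    intro δ
    induction δ using WellFoundedLT.induction with
    | ind δ ih =>
    by_cases hδ : Lim δ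
    · obtain ⟨h1, h2, _⟩ := hl δ hδ (fun ξ hξ => (ih ξ hξ).1)
      refine ⟨h1, ?_, ?_⟩
      · have : Br (fun ξ => (tr δ ξ).1) δ = Br T δ := br_congr fun ζ hζ => by rw [htr δ ζ hζ]
        rw [← this]; exact h2
      · intro ξ hξ t ht F hF
        have hdk : decC π ∅ ∅ = {⊥} := by
          unfold decC
          simp
        have hinf := rs_inf k (decK π T ∅) hδ (fun ζ hζ => (ih ζ hζ).2.1)
          (fun ζ hζ => by
            rw [← hnl (Order.succ ζ)]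
            intro hh
            obtain ⟨a, ha, hb⟩ := hh.2 ζ (Order.lt_succ ζ)
            exact absurd (Order.succ_le_of_lt ha) (not_le.2 hb))
          (fun ζ η hζη hη => (ih η hη).2.2 ζ hζη) hξ ht hF
        rw [← hdk] at hinf
        obtain ⟨u, hu1, hu2, _⟩ := hG δ hδ (fun ξ hξ => (ih ξ hξ).1) ∅ (mem_insert _ _) ∅
          (mem_insert _ _) ξ hξ t ht F hinf
        exact ⟨u, hu1, hu2.2.1, hu2.2.2.2⟩
    · have hT := hnl δ hδ
      refine ⟨?_, hT.subset, ?_⟩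
      · rcases not_lim hδ with h | ⟨η, h⟩
        · rw [hT]
          apply Set.Countable.mono (s₂ := {fun _ => 0}) _ (countable_singleton _)
          intro u hu
          rw [mem_singleton_iff, ← hu.1]
          funext ξ
          rw [res_apply_ge]
          rw [h]; exact bot_le
        · rw [hT, h]
          exact br_succ_countable (ih η (by rw [h]; exact Order.lt_succ η)).1
      · intro ξ hξ t ht F hF
        rcases not_lim hδ with h | ⟨η, h⟩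
        · rw [h] at hξ
          exact absurd hξ not_lt_bot
        · subst h
          have hη := ih η (Order.lt_succ η)
          have : ∃ t' ∈ T η, res ξ t' = t ∧ ∀ m ∈ F, m ∉ t' '' Iio η := by
            rcases (Order.lt_succ_iff.1 hξ).lt_or_eq with h | h
            · exact hη.2.2 ξ h t ht F hF
            · subst h
              exact ⟨t, ht, (hη.2.1 ht).1, hF⟩
          obtain ⟨t', ht', hr, hF'⟩ := this
          obtain ⟨m, _, hm, hmF⟩ := exists_avoid (hη.2.1 ht').2.2.2 F 0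
          obtain ⟨s1, s2, s3, s4⟩ := snoc_mem ht' (hη.2.1 ht') hm
          refine ⟨_, hT ▸ s1, ?_, ?_⟩
          · rw [← res_res (Order.lt_succ_iff.1 hξ), s2, hr]
          · intro m' hm'
            rw [s4]
            rintro (h | h)
            · rw [h] at hm'; exact hmF hm'
            · exact hF' m' hm' h
  exact ⟨T, k, hnl, fun δ => (hP δ).2.1, fun δ => (hP δ).1, fun ξ δ h => (hP δ).2.2 ξ h,
    fun δ hδ => hG δ hδ (fun ξ _ => (hP ξ).1)⟩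

end Pool.Agent.H78.Cat
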